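import Pool.Agent.KSR.Len
import Pool.Agent.Helper8.KS.TheoremII

/-!
# Kahn-Saks with a rate, row K6: bounded spread implies polynomially bounded width
-/

set_option autoImplicit false

namespace Pool.Agent.KSR

open Finset Pool.Agent.Helper1.Balance Pool.Agent.Helper18.Interval Pool.Agent.Helper60.KS
open Pool.Agent.Helper8.KS (vr Ex ht pos LEs LEs_eq_LX)

/-- elements which are not below each other cannot be far apart, explicit form -/
theorem close_of {s : ℝ} (hs : 0 < s) {m M : ℕ}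
    (hm : 3 * (4 * c1 s + 1) ^ 2 / (c0 s ^ 2 / 8) ^ 3 + 4 * c1 s / (c0 s * 2) +
      16 * c1 s / (c0 s ^ 2 * 2) < m)
    (hM : 2 * ((2 * m : ℕ) : ℝ) ^ 2 * (2 * m + 4 * c1 s) < M)
    (n : ℕ) (r : Fin n → Fin n → Prop)
    (mu : Fin n → ℝ) (hr : IsPoset r) (hV : VarLe r mu s) (hN : 0 < (LX r).card) 
    (a b : Fin n) (hab : ¬ r a b) : mu b - mu a ≤ M * (2 * m) + 4 * s := by
  classical
  have hc0 : 0 < c0 s := by unfold c0; positivity
  have hC1 : 0 ≤ c1 s := by unfold c1; positivity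
  have t1 : 0 ≤ 3 * (4 * c1 s + 1) ^ 2 / (c0 s ^ 2 / 8) ^ 3 := by positivity
  have t2 : 0 ≤ 4 * c1 s / (c0 s * 2) := by positivity
  have t3 : 0 ≤ 16 * c1 s / (c0 s ^ 2 * 2) := by positivity
  have hm0 : 0 < m := by
    have : (0 : ℝ) < m := by linarith
    exact_mod_cast this
  have hm1 : 3 * (4 * c1 s + 1) ^ 2 / (c0 s ^ 2 / 8) ^ 3 < m := by linarith
  have hm2 : 4 * c1 s ≤ c0 s * (2 * m) := by
    have : 4 * c1 s / (c0 s * 2) ≤ m := by linarith
    rw [div_le_iff₀ (by positivity)] at this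
    linarith
  have hm3 : 16 * c1 s ≤ c0 s ^ 2 * (2 * m) := by
    have : 16 * c1 s / (c0 s ^ 2 * 2) ≤ m := by linarith
    rw [div_le_iff₀ (by positivity)] at this
    linarith
  have hM0 : 0 < M := by
    have : (0 : ℝ) < M := lt_of_le_of_lt (by positivity) hM
    exact_mod_cast this
  have hM' : (0 : ℝ) < M := by exact_mod_cast hM0
  by_contra hlt
  push Not at hlt
  have hN' : (0 : ℝ) < (LX r).card := by exact_mod_cast hN
  obtain ⟨ka, ha1, ha2⟩ := exists_pos hs hV hN a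
  obtain ⟨kb, hb1, hb2⟩ := exists_pos hs hV hN b
  have hk : (ka : ℕ) + M * (2 * m) < kb := by
    have e1 := abs_lt.1 ha1
    have e2 := abs_lt.1 hb1
    have : ((ka : ℕ) : ℝ) + M * (2 * m) < ((kb : ℕ) : ℝ) := by linarith
    exact_mod_cast this
  let I : Fin n → Prop := fun x => r x b
  let J : Fin n → Prop := fun x => ¬ r a x
  have hI : ∀ x y, r x y → I y → I x := fun x y hxy hy => hr.2.1 x y b hxy hy
  have hJ : ∀ x y, r x y → J y → J x := fun x y hxy hy hx => hy (hr.2.1 a x y hx hxy)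
  have hIJ : ∀ x, I x → J x := fun x hx hax => hab (hr.2.1 a x b hax hx)
  obtain ⟨t, ht, hwin⟩ := exists_window hI (ka : ℕ) (2 * m) M hM0 (by omega)
  have htM : ka + t * (2 * m) + 2 * m ≤ ka + M * (2 * m) := by
    have : (t + 1) * (2 * m) ≤ M * (2 * m) := Nat.mul_le_mul_right _ ht
    rw [Nat.add_mul] at this
    omega
  have hn : ka + t * (2 * m) + 2 * m ≤ n := by omega
  refine absurd (core (r := r) (I := I) (mu := mu) (k0 := ka + t * (2 * m)) hm0 hn hN hc0 hC1
    (fun k => conc hs hV hN I k) ?_ ?_ ?_ hm2 hm3) (not_le.2 hm1)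
  · intro k _ hk2
    refine le_trans ?_ (mono_le hI (r := r) (k := k) (k' := kb) (by omega) kb.2)
    refine hb2.trans ?_
    rw [card_filter]
    push_cast
    refine sum_le_sum fun σ _ => ?_
    split_ifs with h
    · unfold ty
      rw [dif_pos kb.2]
      have : σ.symm ⟨(kb : ℕ), kb.2⟩ = b := by
        rw [Equiv.symm_apply_eq, h]
      rw [this, if_pos (hr.1 b)]
    · exact ty_nonneg I σ _
  · intro k hk1 hk2
    have h1 : ∑ σ ∈ LX r, (1 - ty J σ ka) ≤ ∑ σ ∈ LX r, (1 - ty I σ k) := by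
      have e1 := mono_le hJ (r := r) (k := ka) (k' := k) (by omega) (by omega)
      have e2 : ∑ σ ∈ LX r, ty I σ k ≤ ∑ σ ∈ LX r, ty J σ k := by
        refine sum_le_sum fun σ _ => ?_
        unfold ty
        split_ifs with g1 g2 g3 g4
        · exact le_rfl
        · exact absurd (hIJ _ g2) g3
        · norm_num
        · exact le_rfl
        · exact le_rfl
      rw [sum_sub_distrib, sum_sub_distrib]
      linarith
    refine le_trans ?_ h1
    refine ha2.trans ?_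
    rw [card_filter]
    push_cast
    refine sum_le_sum fun σ _ => ?_
    split_ifs with h
    · unfold ty
      rw [dif_pos ka.2]
      have : σ.symm ⟨(ka : ℕ), ka.2⟩ = a := by
        rw [Equiv.symm_apply_eq, h]
      rw [this, if_neg (fun h' => h' (hr.1 a))]
      norm_num
    · have := ty_le_one J σ ka
      linarith
  · intro τ f hf
    refine (exch_poly (2 * m) (by omega) τ n r I hI _ hn ((LX r).card / M) (by positivity)
      (fun i hi => hwin i (by omega) _) f _ hf).trans ?_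
    rw [mul_div_assoc', div_le_iff₀ hM']
    have := mul_le_mul_of_nonneg_right hM.le hN'.le
    linarith

/-- the constant of `close_poly` -/
def ka : ℝ := 2 * 10 ^ 14

theorem c1_le {s : ℝ} (hs : 1 ≤ s) : c1 s ≤ 256 * s ^ 3 := by
  unfold c1
  have h2 : 1 + s ^ 2 ≤ 2 * s ^ 2 := by nlinarith
  have h3 : 4 * (4 / 3 * (2 + 4 * s)) ≤ 32 * s := by linarith
  calc 4 * (1 + s ^ 2) * (4 * (4 / 3 * (2 + 4 * s)))
      ≤ 4 * (2 * s ^ 2) * (32 * s) := by
        apply mul_le_mul (by linarith) h3 (by positivity) (by positivity)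
    _ = 256 * s ^ 3 := by ring

theorem c0_ge {s : ℝ} (hs : 1 ≤ s) : 3 / (20 * s) ≤ c0 s := by
  unfold c0
  apply div_le_div_of_nonneg_left (by norm_num) (by positivity)
  linarith

theorem m_le {s : ℝ} (hs : 1 ≤ s) : 3 * (4 * c1 s + 1) ^ 2 / (c0 s ^ 2 / 8) ^ 3
    + 4 * c1 s / (c0 s * 2) + 16 * c1 s / (c0 s ^ 2 * 2) ≤ ka * s ^ 12 := by
  have h1 := c1_le hs
  have h0 := c0_ge hs
  have hs0 : 0 < s := by linarith
  have hC1 : 0 ≤ c1 s := by unfold c1; positivity
  have hc0 : 0 < c0 s := by unfold c0; positivity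
  have hq : 0 < 3 / (20 * s) := by positivity
  have p3 : 1 ≤ s ^ 3 := one_le_pow₀ hs
  have a1 : 3 * (4 * c1 s + 1) ^ 2 / (c0 s ^ 2 / 8) ^ 3
      ≤ 3 * (1025 * s ^ 3) ^ 2 / ((3 / (20 * s)) ^ 2 / 8) ^ 3 := by
    apply div_le_div₀ (by positivity)
    · have : 4 * c1 s + 1 ≤ 1025 * s ^ 3 := by linarith
      gcongr
    · positivity
    · gcongr
  have a2 : 4 * c1 s / (c0 s * 2) ≤ 4 * (256 * s ^ 3) / (3 / (20 * s) * 2) := by
    apply div_le_div₀ (by positivity)
    · linarith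
    · positivity
    · linarith
  have a3 : 16 * c1 s / (c0 s ^ 2 * 2) ≤ 16 * (256 * s ^ 3) / ((3 / (20 * s)) ^ 2 * 2) := by
    apply div_le_div₀ (by positivity)
    · linarith
    · positivity
    · gcongr
  have e1 : 3 * (1025 * s ^ 3) ^ 2 / ((3 / (20 * s)) ^ 2 / 8) ^ 3
      = 3 * 1025 ^ 2 * (3200 / 9) ^ 3 * s ^ 12 := by
    field_simp
    ring
  have e2 : 4 * (256 * s ^ 3) / (3 / (20 * s) * 2) = 4 * 256 * 20 / 6 * s ^ 4 := by
    field_simp
    ring
  have e3 : 16 * (256 * s ^ 3) / ((3 / (20 * s)) ^ 2 * 2) = 16 * 256 * 400 / 18 * s ^ 5 := by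
    field_simp
    ring
  rw [e1] at a1
  rw [e2] at a2
  rw [e3] at a3
  have q4 : s ^ 4 ≤ s ^ 12 := pow_le_pow_right₀ hs (by norm_num)
  have q5 : s ^ 5 ≤ s ^ 12 := pow_le_pow_right₀ hs (by norm_num)
  have q12 : 0 < s ^ 12 := by positivity
  unfold ka
  nlinarith

/-- elements which are not below each other are at distance `K s ^ 48` -/
theorem close_poly : ∃ K : ℝ, 1 ≤ K ∧ ∀ s : ℝ, 1 ≤ s → ∀ (n : ℕ) (r : Fin n → Fin n → Prop)
    (mu : Fin n → ℝ), IsPoset r → VarLe r mu s → 0 < (LX r).card →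
    ∀ a b, ¬ r a b → mu b - mu a ≤ K * s ^ 48 := by
  set A : ℝ := ka + 1 with hA
  have hA1 : 1 ≤ A := by rw [hA]; unfold ka; norm_num
  set K : ℝ := (8 * A ^ 2 * (2 * A + 1024) + 1) * (2 * A) + 4 with hK
  refine ⟨K, ?_, fun s hs n r mu hr hV hN a b hab => ?_⟩
  · rw [hK]
    have : 0 ≤ (8 * A ^ 2 * (2 * A + 1024) + 1) * (2 * A) := by positivity
    linarith
  have hs0 : 0 < s := by linarith
  have hC1 : 0 ≤ c1 s := by unfold c1; positivity
  have hk0 : 0 ≤ ka * s ^ 12 := by unfold ka; positivity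
  set m : ℕ := ⌊ka * s ^ 12⌋₊ + 1 with hm
  have m1 : ka * s ^ 12 < m := by
    rw [hm]; push_cast; exact Nat.lt_floor_add_one _
  have m2 : (m : ℝ) ≤ A * s ^ 12 := by
    rw [hm, hA]; push_cast
    have := Nat.floor_le hk0
    have p : 1 ≤ s ^ 12 := one_le_pow₀ hs
    linarith
  set x : ℝ := 2 * ((2 * m : ℕ) : ℝ) ^ 2 * (2 * m + 4 * c1 s) with hx
  have hx0 : 0 ≤ x := by rw [hx]; positivity
  set M : ℕ := ⌊x⌋₊ + 1 with hM
  have M1 : x < M := by rw [hM]; push_cast; exact Nat.lt_floor_add_one _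
  have hm0 : (0 : ℝ) ≤ m := Nat.cast_nonneg m
  have x2 : x ≤ 8 * A ^ 2 * (2 * A + 1024) * s ^ 36 := by
    have h1 := c1_le hs
    have h2 : 4 * c1 s ≤ 1024 * s ^ 12 := by
      have : s ^ 3 ≤ s ^ 12 := pow_le_pow_right₀ hs (by norm_num)
      linarith
    have h3 : 2 * (m : ℝ) + 4 * c1 s ≤ (2 * A + 1024) * s ^ 12 := by linarith
    rw [hx]
    push_cast
    calc 2 * (2 * (m : ℝ)) ^ 2 * (2 * m + 4 * c1 s)
        ≤ 2 * (2 * (A * s ^ 12)) ^ 2 * ((2 * A + 1024) * s ^ 12) := by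
          apply mul_le_mul _ h3 (by positivity) (by positivity)
          gcongr
      _ = 8 * A ^ 2 * (2 * A + 1024) * s ^ 36 := by ring
  have M2 : (M : ℝ) ≤ (8 * A ^ 2 * (2 * A + 1024) + 1) * s ^ 36 := by
    rw [hM]; push_cast
    have := Nat.floor_le hx0
    have p : 1 ≤ s ^ 36 := one_le_pow₀ hs
    linarith
  have h := close_of hs0 (m := m) (M := M) (lt_of_le_of_lt (m_le hs) m1) M1 n r mu hr hV hN a b hab
  refine h.trans ?_
  have h2 : (M : ℝ) * (2 * m) ≤ ((8 * A ^ 2 * (2 * A + 1024) + 1) * s ^ 36) * (2 * (A * s ^ 12)) := by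
    apply mul_le_mul M2 _ (by positivity) (by positivity)
    linarith
  have h3 : 4 * s ≤ 4 * s ^ 48 := by
    have : s ^ 1 ≤ s ^ 48 := pow_le_pow_right₀ hs (by norm_num)
    linarith
  have h4 : ((8 * A ^ 2 * (2 * A + 1024) + 1) * s ^ 36) * (2 * (A * s ^ 12))
      = (8 * A ^ 2 * (2 * A + 1024) + 1) * (2 * A) * s ^ 48 := by ring
  rw [hK]
  rw [h4] at h2
  linarith

/-- **Theorem II, polynomial form**: if the position of every element in a random linear extension
has variance at most `D ^ 2`, then antichains have at most `K D ^ 48` elements, and every element is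
incomparable to at most `K D ^ 48` others. -/
theorem theoremII_poly : ∃ K : ℝ, 1 ≤ K ∧ ∀ D : ℝ, 1 ≤ D → ∀ {n : ℕ}
    (r : Fin n → Fin n → Prop), IsPoset r → (∀ x, vr r x ≤ D ^ 2) →
    (∀ s : Finset (Fin n), IsAnti r s → (s.card : ℝ) ≤ K * D ^ 48) ∧
    (∀ x : Fin n, (Nat.card {y : Fin n // ¬ r x y ∧ ¬ r y x} : ℝ) ≤ K * D ^ 48) := by
  classical
  obtain ⟨K, hK, hclose⟩ := close_poly
  refine ⟨4 / 3 * (2 * K + 5), by linarith, fun D hD n r hr hv => ?_⟩
  have hpos : (0 : ℝ) < ((LX r).card : ℝ) := by exact_mod_cast LX_card_pos hr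
  have hV : VarLe r (fun x => ht r x - 1) D := by
    intro x
    have h1 := hv x
    unfold vr Ex at h1
    rw [LEs_eq_LX, div_le_iff₀ hpos] at h1
    refine le_trans (le_of_eq ?_) h1
    refine Finset.sum_congr rfl fun σ _ => ?_
    unfold pos
    ring
  have hN := LX_card_pos hr
  have hc := hclose D hD n r _ hr hV hN
  have hKD : 0 ≤ K * D ^ 48 := by positivity
  have p48 : D ≤ D ^ 48 := le_self_pow₀ hD (by norm_num)
  have p48' : 1 ≤ D ^ 48 := one_le_pow₀ hD
  have hdens : ∀ a0 : Fin n, ((univ.filter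
      (fun x : Fin n => |(ht r x - 1) - (ht r a0 - 1)| ≤ K * D ^ 48)).card : ℝ)
        ≤ 4 / 3 * (2 * K + 5) * D ^ 48 := by
    intro a0
    refine (density (by linarith) hV hN (ht r a0 - 1) (K * D ^ 48) hKD).trans ?_
    nlinarith
  constructor
  · intro A hA
    rcases A.eq_empty_or_nonempty with rfl | ⟨a0, ha0⟩
    · simp only [card_empty, Nat.cast_zero]
      positivity
    refine le_trans ?_ (hdens a0)
    norm_cast
    apply card_le_card
    intro x hx
    rw [mem_filter]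
    refine ⟨mem_univ _, ?_⟩
    by_cases hxa : x = a0
    · rw [hxa, sub_self, abs_zero]
      exact hKD
    · rw [abs_le]
      have e1 := hc x a0 (hA x hx a0 ha0 hxa)
      have e2 := hc a0 x (hA a0 ha0 x hx (Ne.symm hxa))
      constructor <;> linarith
  · intro a0
    refine le_trans ?_ (hdens a0)
    rw [Nat.card_eq_fintype_card, Fintype.card_subtype]
    norm_cast
    apply card_le_card
    intro x hx
    rw [mem_filter] at hx ⊢
    refine ⟨mem_univ _, ?_⟩
    rw [abs_le]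
    have e1 := hc x a0 hx.2.2
    have e2 := hc a0 x hx.2.1
    constructor <;> linarith

/-- **Theorem II**, with a power of `D` -/
theorem theoremII_pow : ∃ p : ℕ, ∀ D : ℝ, 2 ≤ D → ∀ {n : ℕ}
    (r : Fin n → Fin n → Prop), IsPoset r → (∀ x, vr r x ≤ D ^ 2) →
    (∀ s : Finset (Fin n), IsAnti r s → (s.card : ℝ) ≤ D ^ p) ∧
    (∀ x : Fin n, (Nat.card {y : Fin n // ¬ r x y ∧ ¬ r y x} : ℝ) ≤ D ^ p) := by
  obtain ⟨K, hK, h⟩ := theoremII_poly
  obtain ⟨j, hj⟩ := pow_unbounded_of_one_lt K (by norm_num : (1 : ℝ) < 2)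
  refine ⟨j + 48, fun D hD n r hr hv => ?_⟩
  have h1 : K * D ^ 48 ≤ D ^ (j + 48) := by
    rw [pow_add]
    have : K ≤ D ^ j := hj.le.trans (pow_le_pow_left₀ (by norm_num) hD j)
    exact mul_le_mul_of_nonneg_right this (by positivity)
  obtain ⟨h2, h3⟩ := h D (by linarith) r hr hv
  exact ⟨fun s hs => (h2 s hs).trans h1, fun x => (h3 x).trans h1⟩

open Classical in
/-- the same with the finset of the elements incomparable to `x` -/
theorem theoremII_pow' : ∃ p : ℕ, ∀ D : ℝ, 2 ≤ D → ∀ {n : ℕ}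
    (r : Fin n → Fin n → Prop), IsPoset r → (∀ x, vr r x ≤ D ^ 2) →
    (∀ s : Finset (Fin n), IsAnti r s → (s.card : ℝ) ≤ D ^ p) ∧
    (∀ x : Fin n, ((Finset.univ.filter (fun y => ¬ r x y ∧ ¬ r y x)).card : ℝ) ≤ D ^ p) := by
  obtain ⟨p, h⟩ := theoremII_pow
  refine ⟨p, fun D hD n r hr hv => ⟨(h D hD r hr hv).1, fun x => ?_⟩⟩
  have := (h D hD r hr hv).2 x
  rwa [Nat.card_eq_fintype_card, Fintype.card_subtype] at this

end Pool.Agent.KSR
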