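import Pool.Agent.KSR.TheoremI
import Pool.Agent.KSR.TheoremII
import Pool.Agent.Helper8.KS.KSFinal
import Pool.Agent.Helper11.KS.Structure

set_option autoImplicit false

/-!
# The Kahn-Saks conjecture with a rate
-/

open Pool.Agent.Helper1.Balance Pool.Agent.Helper8.KS

namespace Pool.Agent.KSR

/-- unbalanced posets have bounded width and bounded incomparability degrees -/
theorem unb_bound : ∃ C : ℝ, 1 ≤ C ∧ ∀ ε : ℝ, 0 < ε → ε ≤ 1 / 2 →
    ∀ {n : ℕ} (r : Fin n → Fin n → Prop), IsPoset r → Unb ε r →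
    (∀ s : Finset (Fin n), IsAnti r s → (s.card : ℝ) ≤ (1 / ε) ^ (C / ε ^ 4)) ∧
    (∀ x, (Nat.card {y : Fin n // ¬ r x y ∧ ¬ r y x} : ℝ) ≤ (1 / ε) ^ (C / ε ^ 4)) := by
  obtain ⟨p, hp, hI⟩ := theoremI_poly
  obtain ⟨q, hq⟩ := theoremII_pow
  refine ⟨p * (q + 1), ?_, ?_⟩
  · have : (0 : ℝ) ≤ q := Nat.cast_nonneg q
    nlinarith
  intro ε hε hε2 n r hr hU
  have hb2 : 2 ≤ 1 / ε := by
    rw [le_div_iff₀ hε]; linarith
  have hb0 : 0 < 1 / ε := by positivity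
  have hε1 : ε ≤ 1 := by linarith
  have hε4 : ε ^ 4 ≤ 1 := pow_le_one₀ hε.le hε1
  have hε4p : 0 < ε ^ 4 := by positivity
  have hD2 : 2 ≤ (1 / ε) ^ (p / ε ^ 4) := by
    have h1 : (1 : ℝ) ≤ p / ε ^ 4 := by
      rw [le_div_iff₀ hε4p]; linarith
    calc (2 : ℝ) ≤ 1 / ε := hb2
      _ = (1 / ε) ^ (1 : ℝ) := (Real.rpow_one _).symm
      _ ≤ _ := Real.rpow_le_rpow_of_exponent_le (by linarith) h1
  have hle : ((1 / ε) ^ (p / ε ^ 4)) ^ q ≤ (1 / ε) ^ (p * (q + 1) / ε ^ 4) := by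
    rw [← Real.rpow_natCast, ← Real.rpow_mul hb0.le]
    apply Real.rpow_le_rpow_of_exponent_le (by linarith)
    rw [div_mul_eq_mul_div]
    apply div_le_div_of_nonneg_right _ hε4p.le
    nlinarith
  have h2 := hq _ hD2 r hr (hI ε hε hε2 r hr hU)
  exact ⟨fun s hs => (h2.1 s hs).trans hle, fun x => (h2.2 x).trans hle⟩

/-- the rate -/
theorem deltaW_rate : ∃ C : ℝ, 1 ≤ C ∧ ∀ ε : ℝ, 0 < ε → ε ≤ 1 / 2 →
    ∀ w : ℕ, (1 / ε) ^ (C / ε ^ 4) < w → 1 / 2 - ε ≤ deltaW w := by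
  obtain ⟨C, hC, h⟩ := unb_bound
  refine ⟨C, hC, ?_⟩
  intro ε hε hε2 w hw
  unfold deltaW
  apply le_csInf
  · obtain ⟨n, r, h1, h2⟩ := exists_width w
    exact ⟨_, n, r, h1, h2, rfl⟩
  · rintro d ⟨n, r, h1, ⟨⟨s, hs1, hs2⟩, h3⟩, rfl⟩
    by_contra hcon
    push Not at hcon
    have hU := Pool.Agent.Helper11.KSStruct.unb_of_balance r h1 hε hcon.le
    rw [min_eq_left hε2] at hU
    have := (h ε hε hε2 r h1 hU).1 s hs2
    rw [hs1] at this
    linarith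

theorem deltaW_nonneg (w : ℕ) : 0 ≤ deltaW w := by
  unfold deltaW
  apply le_csInf
  · obtain ⟨n, r, h1, h2⟩ := exists_width w
    exact ⟨_, n, r, h1, h2, rfl⟩
  · rintro d ⟨n, r, _, _, rfl⟩
    exact balance_nonneg' r

/-- `δ_w ≥ 1/2 - C (log log w / log w)^(1/4)` -/
theorem deltaW_loglog : ∃ C : ℝ, 1 ≤ C ∧ ∀ w : ℕ, 16 ≤ w →
    1 / 2 - C * (Real.log (Real.log w) / Real.log w) ^ (1 / 4 : ℝ) ≤ deltaW w := by
  obtain ⟨A, hA, h⟩ := deltaW_rate
  refine ⟨A, hA, ?_⟩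
  intro w hw
  have hwR : (16 : ℝ) ≤ w := by exact_mod_cast hw
  have hw0 : (0 : ℝ) < w := by linarith
  obtain ⟨L, hL⟩ : ∃ L : ℝ, L = Real.log w := ⟨_, rfl⟩
  have he : Real.exp 1 ≤ L := by
    have h1 : Real.log 16 ≤ L := by
      rw [hL]; exact Real.log_le_log (by norm_num) hwR
    have h2 : Real.log 16 = 4 * Real.log 2 := by
      rw [show (16 : ℝ) = 2 ^ 4 by norm_num, Real.log_pow]; norm_num
    have h3 := Real.log_two_gt_d9
    have h4 := Real.exp_one_lt_d9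
    linarith
  have hL0 : 0 < L := lt_of_lt_of_le (Real.exp_pos 1) he
  obtain ⟨l, hl⟩ : ∃ l : ℝ, l = Real.log L := ⟨_, rfl⟩
  have hl1 : 1 ≤ l := by
    rw [hl, Real.le_log_iff_exp_le hL0]; exact he
  rw [← hL, ← hl]
  have hlL : 0 < l / L := by positivity
  obtain ⟨ε, hεd⟩ : ∃ ε : ℝ, ε = A * (l / L) ^ (1 / 4 : ℝ) := ⟨_, rfl⟩
  rw [← hεd]
  have hA0 : 0 < A := by linarith
  have hε : 0 < ε := by rw [hεd]; positivity
  rcases le_or_gt ε (1 / 2) with hε2 | hε2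
  · refine h ε hε hε2 w ?_
    have hε4 : ε ^ 4 = A ^ 4 * (l / L) := by
      rw [hεd, mul_pow]
      congr 1
      rw [← Real.rpow_natCast, ← Real.rpow_mul hlL.le]
      norm_num
    -- log (1/ε) ≤ l / 4
    have hlog : Real.log (1 / ε) ≤ l / 4 := by
      have h1 : Real.log ε = Real.log A + 1 / 4 * (Real.log l - l) := by
        rw [hεd, Real.log_mul hA0.ne' (by positivity), Real.log_rpow hlL,
          Real.log_div (by linarith) hL0.ne', ← hl]
      have h2 : 0 ≤ Real.log A := Real.log_nonneg hA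
      have h3 : 0 ≤ Real.log l := Real.log_nonneg hl1
      rw [one_div, Real.log_inv, h1]
      linarith
    have hb0 : 0 < 1 / ε := by positivity
    rw [← Real.log_lt_log_iff (by positivity) hw0, Real.log_rpow hb0, ← hL]
    have hAA : A ≤ A ^ 4 := by
      calc A = A ^ 1 := (pow_one A).symm
        _ ≤ A ^ 4 := pow_le_pow_right₀ hA (by norm_num)
    have h3 : A / ε ^ 4 ≤ L / l := by
      rw [hε4, div_le_div_iff₀ (by positivity) (by linarith)]
      have : L * (A ^ 4 * (l / L)) = A ^ 4 * l := by field_simp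
      rw [this]
      exact mul_le_mul_of_nonneg_right hAA (by linarith)
    have h4 : 0 ≤ A / ε ^ 4 := by positivity
    calc A / ε ^ 4 * Real.log (1 / ε) ≤ A / ε ^ 4 * (l / 4) :=
          mul_le_mul_of_nonneg_left hlog h4
      _ ≤ L / l * (l / 4) := mul_le_mul_of_nonneg_right h3 (by linarith)
      _ = L / 4 := by
          have : l ≠ 0 := by linarith
          field_simp
      _ < L := by linarith
  · have := deltaW_nonneg w
    linarith

/-- explicit growth -/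
theorem deltaW_growth : ∃ C : ℝ, 1 ≤ C ∧ ∀ w w' : ℕ, 2 ≤ w →
    (w : ℝ) ^ (C * (w : ℝ) ^ 4) ≤ w' → deltaW w < deltaW w' := by
  obtain ⟨A, hA, h⟩ := deltaW_rate
  refine ⟨6 * 24 ^ 4 * A + 1, by linarith, ?_⟩
  intro w w' hw hw'
  have hwR : (2 : ℝ) ≤ w := by exact_mod_cast hw
  have hw0 : (0 : ℝ) < w := by linarith
  have hε : (0 : ℝ) < 1 / (24 * w) := by positivity
  have hε2 : (1 : ℝ) / (24 * w) ≤ 1 / 2 := by
    rw [div_le_div_iff₀ (by positivity) (by norm_num)]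
    linarith
  have h1 : 1 / 2 - 1 / (24 * (w : ℝ)) ≤ deltaW w' := by
    refine h _ hε hε2 w' (lt_of_lt_of_le ?_ hw')
    have e1 : 1 / (1 / (24 * (w : ℝ))) = 24 * w := one_div_one_div _
    have e2 : A / (1 / (24 * (w : ℝ))) ^ 4 = 24 ^ 4 * A * (w : ℝ) ^ 4 := by
      field_simp
    rw [e1, e2]
    have e3 : 24 * (w : ℝ) ≤ (w : ℝ) ^ (6 : ℕ) := by
      have : (2 : ℝ) ^ 5 ≤ (w : ℝ) ^ 5 := pow_le_pow_left₀ (by norm_num) hwR 5
      calc 24 * (w : ℝ) ≤ 2 ^ 5 * w := by linarith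
        _ ≤ (w : ℝ) ^ 5 * w := by gcongr
        _ = (w : ℝ) ^ 6 := by ring
    have e4 : (24 * (w : ℝ)) ^ (24 ^ 4 * A * (w : ℝ) ^ 4) ≤
        ((w : ℝ) ^ (6 : ℕ)) ^ (24 ^ 4 * A * (w : ℝ) ^ 4) :=
      Real.rpow_le_rpow (by positivity) e3 (by positivity)
    refine lt_of_le_of_lt e4 ?_
    rw [← Real.rpow_natCast, ← Real.rpow_mul hw0.le]
    apply Real.rpow_lt_rpow_of_exponent_lt (by linarith)
    have e5 : 0 < (w : ℝ) ^ 4 := by positivity
    push_cast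
    linarith
  have h2 : deltaW w ≤ 1 / 2 - 1 / (12 * ((w : ℝ) - 1)) := main w hw
  have h3 : 1 / (24 * (w : ℝ)) < 1 / (12 * ((w : ℝ) - 1)) := by
    apply one_div_lt_one_div_of_lt
    · linarith
    · linarith
  linarith

/-- a strict increase in every long window -/
theorem deltaW_succ_window : ∃ C : ℝ, 1 ≤ C ∧ ∀ w : ℕ, 2 ≤ w →
    ∃ v : ℕ, w ≤ v ∧ (v : ℝ) ≤ (w : ℝ) ^ (C * (w : ℝ) ^ 4) ∧ deltaW v < deltaW (v + 1) := by
  obtain ⟨C, hC, h⟩ := deltaW_growth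
  refine ⟨C, hC, ?_⟩
  intro w hw
  have hwR : (2 : ℝ) ≤ w := by exact_mod_cast hw
  by_contra hcon
  push Not at hcon
  obtain ⟨m, hm⟩ : ∃ m : ℕ, m = ⌊(w : ℝ) ^ (C * (w : ℝ) ^ 4)⌋₊ := ⟨_, rfl⟩
  have hm1 : (m : ℝ) ≤ (w : ℝ) ^ (C * (w : ℝ) ^ 4) := by
    rw [hm]; exact Nat.floor_le (by positivity)
  have hm2 : (w : ℝ) ^ (C * (w : ℝ) ^ 4) ≤ ((m + 1 : ℕ) : ℝ) := by
    rw [hm]; push_cast
    exact (Nat.lt_floor_add_one _).le
  have hwm : w ≤ m + 1 := by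
    have h1 : (1 : ℝ) ≤ C * (w : ℝ) ^ 4 := by
      have : (1 : ℝ) ≤ (w : ℝ) ^ 4 := one_le_pow₀ (by linarith)
      nlinarith
    have h2 : (w : ℝ) ≤ (w : ℝ) ^ (C * (w : ℝ) ^ 4) := by
      calc (w : ℝ) = (w : ℝ) ^ (1 : ℝ) := (Real.rpow_one _).symm
        _ ≤ _ := Real.rpow_le_rpow_of_exponent_le (by linarith) h1
    have h3 := h2.trans hm2
    exact_mod_cast h3
  have h5 : ∀ k, w + k ≤ m + 1 → deltaW (w + k) ≤ deltaW w := by
    intro k
    induction k with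
    | zero => intro _; exact le_rfl
    | succ k ih =>
      intro hk
      refine (hcon (w + k) (by omega) ?_).trans (ih (by omega))
      refine le_trans ?_ hm1
      exact_mod_cast (by omega : w + k ≤ m)
  have h6 := h w (m + 1) hw hm2
  have h7 := h5 (m + 1 - w) (by omega)
  rw [show w + (m + 1 - w) = m + 1 by omega] at h7
  linarith

theorem deltaW_le_zero {w : ℕ} (h : w < 2) : deltaW w ≤ 0 := by
  have hsub : ∀ a b : Fin w, a = b := by
    intro a b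
    apply Fin.ext
    have := a.2
    have := b.2
    omega
  have h0 : balance (fun _ _ : Fin w => True) = 0 := by
    unfold balance
    have : {t : ℝ | ∃ x y : Fin w, ¬ True ∧ ¬ True ∧
        t = min (prob (fun _ _ : Fin w => True) x y) (prob (fun _ _ : Fin w => True) y x)} =
          ∅ := by
      ext t
      simp
    rw [this, Real.sSup_empty]
  unfold deltaW
  refine csInf_le (bddBelow_set' w) ⟨w, fun _ _ => True, ?_, ?_, h0.symm⟩
  · exact ⟨fun _ => trivial, fun _ _ _ _ _ => trivial, fun a b _ _ => hsub a b⟩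
  · refine ⟨⟨Finset.univ, by simp, ?_⟩, ?_⟩
    · intro a _ b _ hab
      exact absurd (hsub a b) hab
    · intro s _
      exact (Finset.card_le_univ s).trans (by simp)

/-- the threshold function is monotone -/
theorem wthr_mono {C C' x y : ℝ} (hC : 0 ≤ C) (hCC : C ≤ C') (hx : 1 ≤ x) (hxy : x ≤ y) :
    x ^ (C * x ^ 4) ≤ y ^ (C' * y ^ 4) := by
  have hx0 : 0 ≤ x := by linarith
  have h1 : C * x ^ 4 ≤ C' * y ^ 4 :=
    mul_le_mul hCC (pow_le_pow_left₀ hx0 hxy 4) (by positivity) (by linarith)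
  calc x ^ (C * x ^ 4) ≤ y ^ (C * x ^ 4) := Real.rpow_le_rpow hx0 hxy (by positivity)
    _ ≤ y ^ (C' * y ^ 4) := Real.rpow_le_rpow_of_exponent_le (by linarith) h1

/-- explicit growth, for all widths -/
theorem deltaW_growth_all : ∃ C : ℝ, 1 ≤ C ∧ ∀ w w' : ℕ,
    ((w : ℝ) + 2) ^ (C * ((w : ℝ) + 2) ^ 4) ≤ w' → deltaW w < deltaW w' := by
  obtain ⟨A, hA, h⟩ := deltaW_growth
  obtain ⟨B, hB, hr⟩ := deltaW_rate
  refine ⟨A + 32 * B + 1, by linarith, ?_⟩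
  intro w w' hw'
  rcases Nat.lt_or_ge w 2 with hw | hw
  · have h0 := deltaW_le_zero hw
    have h1 : 1 / 2 - 1 / 4 ≤ deltaW w' := by
      refine hr (1 / 4) (by norm_num) (by norm_num) w' (lt_of_lt_of_le ?_ hw')
      have e1 : (1 / (1 / 4 : ℝ)) ^ (B / (1 / 4 : ℝ) ^ 4) = (2 : ℝ) ^ (512 * B) := by
        have : (1 / (1 / 4 : ℝ)) = (2 : ℝ) ^ (2 : ℝ) := by norm_num
        rw [this, ← Real.rpow_mul (by norm_num)]
        congr 1
        norm_num
        ring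
      rw [e1]
      have e2 : (2 : ℝ) ^ ((A + 32 * B + 1) * 2 ^ 4) ≤
          ((w : ℝ) + 2) ^ ((A + 32 * B + 1) * ((w : ℝ) + 2) ^ 4) := by
        apply wthr_mono (by linarith) le_rfl (by norm_num)
        have : (0 : ℝ) ≤ w := Nat.cast_nonneg w
        linarith
      refine lt_of_lt_of_le ?_ e2
      apply Real.rpow_lt_rpow_of_exponent_lt (by norm_num)
      linarith
    linarith
  · refine h w w' hw (le_trans ?_ hw')
    have hwR : (2 : ℝ) ≤ w := by exact_mod_cast hw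
    exact wthr_mono (by linarith) (by linarith) (by linarith) (by linarith)

/-- a strict increase in every long window, for all widths -/
theorem deltaW_succ_window_all : ∃ C : ℝ, 1 ≤ C ∧ ∀ w : ℕ,
    ∃ v : ℕ, w ≤ v ∧ (v : ℝ) ≤ ((w : ℝ) + 2) ^ (C * ((w : ℝ) + 2) ^ 4) ∧
      deltaW v < deltaW (v + 1) := by
  obtain ⟨A, hA, h⟩ := deltaW_succ_window
  refine ⟨A, hA, ?_⟩
  intro w
  obtain ⟨v, h1, h2, h3⟩ := h (w + 2) (by omega)
  refine ⟨v, by omega, ?_, h3⟩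
  push_cast at h2
  exact h2

end Pool.Agent.KSR
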