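import Pool.Agent.KSR.Cover
import Pool.Agent.Helper8.KS.Family

set_option autoImplicit false

/-!
# The block lemma with explicit parameters
-/

open MeasureTheory Pool.Agent.Helper1.Balance

namespace Pool.Agent.KSR

open Pool.Agent.Helper8.KS Pool.Agent.Helper1.KSB

variable {n : ℕ} {r : Fin n → Fin n → Prop} {top : Fin n}

/-- Inputs of the block lemma, with parameters `u`, `η`, `m2`. -/
structure InpR (M : Model r top) (N0 : ℕ) (C5 u η : ℝ) (m2 : ℕ) : Prop where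
  base : Inp M N0 C5
  u_pos : 0 < u
  u_small : 16 * (N0 : ℝ) ^ 2 * (3 : ℝ) ^ (-u / 16) ≤ 1 / 8
  η_pos : 0 < η
  η_le : η ≤ 1
  η_u : 2 * u * η ≤ a0 C5
  cov2 : ∀ g : ℝ, 0 < g → Cv M (16 * g) (η * g) (2 ^ m2)

theorem SS_pieces' {M : Model r top} {N0 : ℕ} {C5 u η : ℝ} {m2 : ℕ} (J : InpR M N0 C5 u η m2)
    {Q1 Q2 : Finset (Fin n)} {ρ g : ℝ} (hr : 0 < ρ) (hg : 0 < g)
    (h1 : M.IsPiece Q1 ρ) (h2 : M.IsPiece Q2 ρ) (F : Finset (Fin n × Fin n))
    (hF : ∀ p ∈ F, p.1 ∈ Q1 ∧ p.2 ∈ Q2 ∧ r p.1 p.2 ∧ p.1 ≠ p.2 ∧ g ≤ ht r p.2 - ht r p.1)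
    (hrg : ρ ≤ η * g) : 1 / 2 ≤ M.μ.real (M.SS F (a0 C5 * g)) := by
  classical
  have I := J.base
  rcases F.eq_empty_or_nonempty with rfl | hne
  · exact SS_empty M _
  obtain ⟨p0, hp0, hmin⟩ := Finset.exists_min_image F (fun p => ht r p.2 - ht r p.1) hne
  obtain ⟨hx0, hz0, hxz, hxne, hg0⟩ := hF p0 hp0
  have ha := a0_pos I.C5_pos
  have hu := J.u_pos
  have hC := I.C5_pos
  have hg1 : 0 < ht r p0.2 - ht r p0.1 := lt_of_lt_of_le hg hg0
  set E1 : Set (Fin n → ℝ) := {t | t p0.2 - t p0.1 ≤ 2 * a0 C5 * (ht r p0.2 - ht r p0.1)} with hE1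
  set E2 : Set (Fin n → ℝ) := {t | ∃ x ∈ Q1, u * ρ ≤ |M.cd x p0.1 t|} with hE2
  set E3 : Set (Fin n → ℝ) := {t | ∃ x ∈ Q2, u * ρ ≤ |M.cd x p0.2 t|} with hE3
  set E4 : Set (Fin n → ℝ) := (Cone r)ᶜ with hE4
  have b1 : M.μ.real E1 ≤ 1 / 4 := by
    refine (I.small _ _ hxz hxne _ (by positivity)).trans ?_
    unfold a0
    rw [div_le_iff₀ hg1]
    have : C5 * (2 * (1 / (8 * C5)) * (ht r p0.2 - ht r p0.1)) =
        1 / 4 * (ht r p0.2 - ht r p0.1) := by field_simp; norm_num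
    rw [this]
  have b2 : M.μ.real E2 ≤ 1 / 8 := (I.chain ρ Q1 hr h1 _ hx0 _ hu.le).trans J.u_small
  have b3 : M.μ.real E3 ≤ 1 / 8 := (I.chain ρ Q2 hr h2 _ hz0 _ hu.le).trans J.u_small
  have b4 : M.μ.real E4 = 0 := by
    rw [measureReal_def, hE4]
    have := M.cone
    rw [ae_iff] at this
    have e : {a | a ∉ Cone r} = (Cone r)ᶜ := rfl
    rw [e] at this
    rw [this]; simp
  have hcov : (Set.univ : Set (Fin n → ℝ)) ⊆ M.SS F (a0 C5 * g) ∪ (E1 ∪ (E2 ∪ (E3 ∪ E4))) := by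
    intro t _
    by_contra hcon
    simp only [Set.mem_union, not_or] at hcon
    obtain ⟨n0, n1, n2, n3, n4⟩ := hcon
    apply n0
    rw [hE4, Set.notMem_compl_iff] at n4
    refine ⟨n4, fun p hp => ?_⟩
    obtain ⟨hpx, hpz, hplt, hpne, hpg⟩ := hF p hp
    have m0 := hmin p hp
    simp only [hE1, Set.mem_ofPred_eq, not_le] at n1
    simp only [hE2, Set.mem_ofPred_eq, not_exists, not_and, not_le] at n2
    simp only [hE3, Set.mem_ofPred_eq, not_exists, not_and, not_le] at n3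
    have k2 := n2 _ hpx
    have k3 := n3 _ hpz
    unfold Model.cd at k2 k3
    rw [abs_lt] at k2 k3
    have k4 : 2 * (u * ρ) ≤ a0 C5 * g := by
      have e1 : u * ρ ≤ u * (η * g) := mul_le_mul_of_nonneg_left hrg hu.le
      have e2 : 2 * u * η * g ≤ a0 C5 * g := mul_le_mul_of_nonneg_right J.η_u hg.le
      linarith
    have k5 : 2 * a0 C5 * g ≤ 2 * a0 C5 * (ht r p0.2 - ht r p0.1) :=
      mul_le_mul_of_nonneg_left hg0 (by positivity)
    have hh : ht r p0.2 - ht r p0.1 ≤ ht r p.2 - ht r p.1 := m0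
    linarith [k2.1, k2.2, k3.1, k3.2]
  have hm : (1 : ℝ) ≤ M.μ.real (M.SS F (a0 C5 * g)) +
      (M.μ.real E1 + (M.μ.real E2 + (M.μ.real E3 + M.μ.real E4))) := by
    calc (1 : ℝ) = M.μ.real Set.univ := by simp
      _ ≤ M.μ.real (M.SS F (a0 C5 * g) ∪ (E1 ∪ (E2 ∪ (E3 ∪ E4)))) := measureReal_mono hcov
      _ ≤ M.μ.real (M.SS F (a0 C5 * g)) + M.μ.real (E1 ∪ (E2 ∪ (E3 ∪ E4))) :=
          measureReal_union_le _ _
      _ ≤ M.μ.real (M.SS F (a0 C5 * g)) + (M.μ.real E1 + M.μ.real (E2 ∪ (E3 ∪ E4))) := by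
          gcongr; exact measureReal_union_le _ _
      _ ≤ M.μ.real (M.SS F (a0 C5 * g)) +
          (M.μ.real E1 + (M.μ.real E2 + M.μ.real (E3 ∪ E4))) := by
          gcongr; exact measureReal_union_le _ _
      _ ≤ _ := by
          gcongr; exact measureReal_union_le _ _
  linarith

theorem block_level' {M : Model r top} {N0 : ℕ} {C5 u η : ℝ} {m2 : ℕ}
    (J : InpR M N0 C5 u η m2) {δ ℓ : ℝ} (hδ : 0 < δ)
    (B : Finset (Fin n)) (hB : M.IsPiece B (7 * ℓ)) (m1 : ℕ)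
    (hc1 : Cv M (7 * ℓ) (η * δ) (2 ^ m1)) {g : ℝ} (hg : δ ≤ g) :
    1 / 2 ≤ M.μ.real (M.SS (PPk r B g) (a0 C5 * g / 2 ^ (m1 + m2))) := by
  classical
  have I := J.base
  have hηp : 0 < η := J.η_pos
  have hη1 : η ≤ 1 := J.η_le
  have hgp : 0 < g := lt_of_lt_of_le hδ hg
  have hrp : 0 < η * g := by positivity
  obtain ⟨Qs, hQc, hQp, hQcov⟩ := hc1 B hB
  have hQc' : Qs.card ≤ 2 ^ m1 := by exact_mod_cast hQc
  have hQ' : ∀ Q ∈ Qs, M.IsPiece Q (η * g) := by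
    intro Q hQ
    exact Pool.Agent.Helper1.KSB.IsPiece.mono (hQp Q hQ).2 (mul_le_mul_of_nonneg_left hg hηp.le)
  -- the elements above a piece
  set Z : Finset (Fin n) → Finset (Fin n) := fun Q =>
    Finset.univ.filter (fun z' => ∃ w ∈ Q, (w, z') ∈ PPk r B g) with hZdef
  have hZ : ∀ Q ∈ Qs, M.IsPiece (Z Q) (16 * g) := by
    intro Q hQ z1 hz1 z2 hz2
    simp only [hZdef, Finset.mem_filter, Finset.mem_univ, true_and] at hz1 hz2
    obtain ⟨r1, hr1, hp1⟩ := hz1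
    obtain ⟨r2, hr2, hp2⟩ := hz2
    obtain ⟨hB1, hnB1, hlt1, ha1, hb1⟩ := mem_PPk.1 hp1
    obtain ⟨hB2, hnB2, hlt2, ha2, hb2⟩ := mem_PPk.1 hp2
    have e0 := hQ' Q hQ r1 hr1 r2 hr2
    have hηg : η * g ≤ g := by nlinarith
    have e1 : |ht r r1 - ht r r2| ≤ g := e0.1.trans hηg
    have e2 : M.s r1 r2 ≤ 2 * g := e0.2.trans (by linarith)
    simp only at ha1 hb1 ha2 hb2 hlt1 hlt2
    rw [abs_le] at e1
    constructor
    · rw [abs_le]; constructor <;> linarith [e1.1, e1.2]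
    · have k1 := M.s_le_of_rel hlt1
      have k2 := M.s_le_of_rel hlt2
      have k3 := M.s_triangle z1 r1 z2
      have k4 := M.s_triangle r1 r2 z2
      have k5 := M.s_comm z1 r1
      linarith
  have hZc : ∀ Q : Finset (Fin n), ∃ Rs : Finset (Finset (Fin n)), Q ∈ Qs →
      Rs.card ≤ 2 ^ m2 ∧ (∀ R ∈ Rs, M.IsPiece R (η * g)) ∧
      ∀ x ∈ Z Q, ∃ R ∈ Rs, x ∈ R := by
    intro Q
    by_cases hQ : Q ∈ Qs
    · obtain ⟨Rs, h1, h2, h3⟩ := J.cov2 g hgp (Z Q) (hZ Q hQ)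
      exact ⟨Rs, fun _ => ⟨by exact_mod_cast h1, fun R hR => (h2 R hR).2, h3⟩⟩
    · exact ⟨∅, fun h => absurd h hQ⟩
  choose Rs hRs using hZc
  set Fam : Finset (Fin n) → Finset (Fin n) → Finset (Fin n × Fin n) :=
    fun Q R => (PPk r B g).filter (fun p => p.1 ∈ Q ∧ p.2 ∈ R) with hFam
  have hfam : ∀ Q ∈ Qs, ∀ R ∈ Rs Q, 1 / 2 ≤ M.μ.real (M.SS (Fam Q R) (a0 C5 * g)) := by
    intro Q hQ R hR
    refine SS_pieces' J (ρ := η * g) hrp hgp (hQ' Q hQ) ((hRs Q hQ).2.1 R hR) (Fam Q R) ?_ le_rfl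
    intro p hp
    simp only [hFam, Finset.mem_filter] at hp
    obtain ⟨hp, hp1, hp2⟩ := hp
    obtain ⟨q1, q2, q3, q4, q5⟩ := mem_PPk.1 hp
    exact ⟨hp1, hp2, q3, fun hc => q2 (hc ▸ q1), q4⟩
  have hrel : ∀ Q R, ∀ p ∈ Fam Q R, r p.1 p.2 := by
    intro Q R p hp
    simp only [hFam, Finset.mem_filter] at hp
    exact (mem_PPk.1 hp.1).2.2.1
  have hU1 : ∀ Q ∈ Qs, 1 / 2 ≤ M.μ.real (M.SS ((Rs Q).biUnion (Fam Q))
      (a0 C5 * g / 2 ^ m2)) := by
    intro Q hQ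
    exact Pool.Agent.Helper1.KSB.SS_biUnion M (Fam Q) _ (Rs Q) (a0 C5 * g) (fun R _ => hrel Q R)
      (hRs Q hQ).1 (hfam Q hQ)
  have hU2 := Pool.Agent.Helper1.KSB.SS_biUnion M (fun Q => (Rs Q).biUnion (Fam Q)) m1 Qs
    (a0 C5 * g / 2 ^ m2) (by
      intro Q hQ p hp
      obtain ⟨R, _, hR⟩ := Finset.mem_biUnion.1 hp
      exact hrel Q R p hR)
    hQc' hU1
  have elam : a0 C5 * g / 2 ^ m2 / 2 ^ m1 = a0 C5 * g / 2 ^ (m1 + m2) := by
    rw [div_div, ← pow_add, add_comm]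
  rw [elam] at hU2
  refine hU2.trans (SS_mono M ?_ le_rfl)
  intro p hp
  obtain ⟨q1, q2, q3, q4, q5⟩ := mem_PPk.1 hp
  obtain ⟨Q, hQ, hpQ⟩ := hQcov p.1 q1
  have hpZ : p.2 ∈ Z Q := by
    simp only [hZdef, Finset.mem_filter, Finset.mem_univ, true_and]
    exact ⟨p.1, hpQ, hp⟩
  obtain ⟨R, hR, hpR⟩ := (hRs Q hQ).2.2 p.2 hpZ
  refine Finset.mem_biUnion.2 ⟨Q, hQ, Finset.mem_biUnion.2 ⟨R, hR, ?_⟩⟩
  simp only [hFam, Finset.mem_filter]
  exact ⟨hp, hpQ, hpR⟩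

/-- the constant of the block lemma -/
noncomputable def cR (C5 : ℝ) (m : ℕ) : ℝ := a0 C5 / 2 ^ (m + 1)

theorem cR_pos {C5 : ℝ} (h : 0 < C5) (m : ℕ) : 0 < cR C5 m := by
  have := a0_pos h
  unfold cR; positivity

theorem block_all' {M : Model r top} {N0 : ℕ} {C5 u η : ℝ} {m2 : ℕ}
    (J : InpR M N0 C5 u η m2) {δ ℓ : ℝ} (hδ : 0 < δ)
    (B : Finset (Fin n)) (hB : M.IsPiece B (7 * ℓ)) (m1 : ℕ)
    (hc1 : Cv M (7 * ℓ) (η * δ) (2 ^ m1)) :
    1 / 2 ≤ M.μ.real (M.SS (PPge r B δ) (cR C5 (m1 + m2) * δ)) := by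
  classical
  have I := J.base
  -- for large k the family is empty
  obtain ⟨H, hH⟩ : ∃ H : ℝ, ∀ p : Fin n × Fin n, ht r p.2 - ht r p.1 ≤ H := by
    obtain ⟨H, hH⟩ := (Set.finite_range (fun p : Fin n × Fin n => ht r p.2 - ht r p.1)).bddAbove
    exact ⟨H, fun p => hH ⟨p, rfl⟩⟩
  obtain ⟨K, hK⟩ : ∃ K : ℕ, H < 2 ^ K * δ := by
    obtain ⟨K, hK⟩ := pow_unbounded_of_one_lt (H / δ) (one_lt_two)
    refine ⟨K, ?_⟩
    rwa [div_lt_iff₀ hδ] at hK
  have key : ∀ l k : ℕ, K ≤ k + l →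
      1 / 2 ≤ M.μ.real (M.SS (PPge r B (2 ^ k * δ)) (cR C5 (m1 + m2) * (2 ^ k * δ))) := by
    intro l
    induction l with
    | zero =>
      intro k hk
      have : PPge r B (2 ^ k * δ) = ∅ := by
        rw [Finset.eq_empty_iff_forall_notMem]
        intro p hp
        obtain ⟨-, -, -, hp⟩ := mem_PPge.1 hp
        have e1 := hH p
        have e2 : (2 : ℝ) ^ K ≤ 2 ^ k := pow_le_pow_right₀ (by norm_num) (by omega)
        have e3 : (2 : ℝ) ^ K * δ ≤ 2 ^ k * δ := mul_le_mul_of_nonneg_right e2 hδ.le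
        linarith
      rw [this]
      exact SS_empty M _
    | succ l ih =>
      intro k hk
      have e1 := ih (k + 1) (by omega)
      have hkδ : δ ≤ 2 ^ k * δ := by
        have : (1 : ℝ) ≤ 2 ^ k := one_le_pow₀ (by norm_num)
        nlinarith
      have e2 := block_level' J hδ B hB m1 hc1 hkδ
      have e3 : a0 C5 * (2 ^ k * δ) / 2 ^ (m1 + m2) =
          2 * (cR C5 (m1 + m2) * (2 ^ k * δ)) := by
        unfold cR; rw [pow_succ]; field_simp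
      have e4 : cR C5 (m1 + m2) * (2 ^ (k + 1) * δ) = 2 * (cR C5 (m1 + m2) * (2 ^ k * δ)) := by
        rw [pow_succ]; ring
      rw [e3] at e2
      rw [e4] at e1
      have e5 := Pool.Agent.Helper1.KSB.SS_union M (fun p hp => (mem_PPk.1 hp).2.2.1)
        (fun p hp => (mem_PPge.1 hp).2.2.1) e2 e1
      refine e5.trans (SS_mono M ?_ (by linarith))
      intro p hp
      obtain ⟨h1, h2, h3, h4⟩ := mem_PPge.1 hp
      rcases lt_or_ge (ht r p.2 - ht r p.1) (2 * (2 ^ k * δ)) with h5 | h5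
      · exact Finset.mem_union_left _ (mem_PPk.2 ⟨h1, h2, h3, h4, h5⟩)
      · refine Finset.mem_union_right _ (mem_PPge.2 ⟨h1, h2, h3, ?_⟩)
        rw [pow_succ]; linarith
  have := key K 0 (by omega)
  simpa using this

/-- The block lemma. -/
theorem block' {M : Model r top} {N0 : ℕ} {C5 u η : ℝ} {m2 : ℕ}
    (J : InpR M N0 C5 u η m2) {δ ℓ : ℝ} (hδ : 0 < δ)
    (hℓ : 0 < ℓ) (m1 : ℕ) (hc1 : Cv M (7 * ℓ) (η * δ) (2 ^ m1))
    (B : Finset (Fin n)) (hTB : top ∉ B) (z : Fin n) (hzB : ∀ w ∈ B, r z w)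
    (hlen : ∀ w ∈ B, ht r w < ht r z + ℓ)
    (hgap : ∀ w ∈ B, ∀ z', z' ∉ B → r w z' → δ ≤ ht r z' - ht r w) :
    ∀ w ∈ B, ∀ x, x ∉ B → cR C5 (m1 + m2) * δ / 3 ≤ M.s w x := by
  classical
  have I := J.base
  intro w hw x hx
  have hzr : ∀ w ∈ B, M.s z w ≤ 7 * ℓ ∧ ht r z ≤ ht r w := by
    intro w hw
    rcases eq_or_ne z w with h0 | h0
    · rw [← h0, M.s_self]; exact ⟨by linarith, le_rfl⟩
    · have k1 := M.s_le_of_rel (hzB w hw)
      have k2 := M.ht_mono (hzB w hw) h0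
      have k3 := hlen w hw
      exact ⟨by linarith, k2.le⟩
  have hB : M.IsPiece B (7 * ℓ) := by
    intro r1 h1 r2 h2
    obtain ⟨a1, b1⟩ := hzr r1 h1
    obtain ⟨a2, b2⟩ := hzr r2 h2
    have c1 := hlen r1 h1
    have c2 := hlen r2 h2
    refine ⟨?_, ?_⟩
    · rw [abs_le]; constructor <;> linarith
    · have k1 := M.s_triangle r1 z r2
      rw [M.s_comm r1 z] at k1
      linarith
  set lam := cR C5 (m1 + m2) * δ with hlam
  have hlamp : 0 < lam := mul_pos (cR_pos I.C5_pos _) hδ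
  have hA := block_all' J hδ B hB m1 hc1
  set A := M.SS (PPge r B δ) lam with hAdef
  have hAm : MeasurableSet A := measurable_SS _ _ _
  have hbump : ∀ t ∈ A, shiftBy B lam t ∈ Cone r := by
    rintro t ⟨ht', htF⟩ x y hxy
    have e := ht' x y hxy
    unfold shiftBy
    by_cases hxB : x ∈ B <;> by_cases hyB : y ∈ B
    · simp only [hxB, hyB, if_true]; linarith
    · simp only [hxB, hyB, if_true, if_false]
      have := htF (x, y) (mem_PPge.2 ⟨hxB, hyB, hxy, hgap x hxB y hyB hxy⟩)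
      simp only at this
      linarith
    · simp only [hxB, hyB, if_true, if_false]; linarith
    · simp only [hxB, hyB, if_false]; linarith
  have hmeas : Measurable (fun t : Fin n → ℝ => ENNReal.ofReal (M.cd w x t ^ 2)) := by
    refine ENNReal.measurable_ofReal.comp ?_
    exact (((measurable_pi_apply w).sub (measurable_pi_apply x)).sub measurable_const).pow_const 2
  have hvar : ∫⁻ t, ENNReal.ofReal (M.cd w x t ^ 2) ∂M.μ = ENNReal.ofReal (M.s w x ^ 2) := by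
    rw [M.s_sq, ofReal_integral_eq_lintegral_ofReal]
    · exact (M.memLp_cd w x 2).integrable_sq
    · exact Filter.Eventually.of_forall fun t => sq_nonneg _
  have hs := M.shift B lam A hTB hlamp.le hAm hbump
    (fun t => ENNReal.ofReal (M.cd w x t ^ 2)) hmeas
  rw [hvar] at hs
  have hs2 : ∫⁻ t in A, ENNReal.ofReal (M.cd w x t ^ 2) ∂M.μ ≤
      ENNReal.ofReal (M.s w x ^ 2) := by
    rw [← hvar]
    exact setLIntegral_le_lintegral _ _
  have hsum : ∫⁻ t in A, ENNReal.ofReal (lam ^ 2 / 2) ∂M.μ ≤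
      ENNReal.ofReal (M.s w x ^ 2) + ENNReal.ofReal (M.s w x ^ 2) := by
    refine le_trans ?_ (add_le_add hs2 hs)
    rw [← lintegral_add_left hmeas]
    refine lintegral_mono fun t => ?_
    rw [← ENNReal.ofReal_add (sq_nonneg _) (sq_nonneg _)]
    refine ENNReal.ofReal_le_ofReal ?_
    unfold Model.cd shiftBy
    simp only [hw, hx, if_true, if_false, add_zero]
    nlinarith [sq_nonneg (2 * (t w - t x - (ht r w - ht r x)) + lam)]
  rw [setLIntegral_const, ← ENNReal.ofReal_add (sq_nonneg _) (sq_nonneg _)] at hsum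
  have hμA : ENNReal.ofReal (1 / 2) ≤ M.μ A := by
    rw [← ofReal_measureReal (μ := M.μ) (s := A)]
    exact ENNReal.ofReal_le_ofReal hA
  have h3 : ENNReal.ofReal (lam ^ 2 / 2 * (1 / 2)) ≤
      ENNReal.ofReal (M.s w x ^ 2 + M.s w x ^ 2) := by
    rw [ENNReal.ofReal_mul (by positivity)]
    exact (mul_le_mul_right hμA _).trans hsum
  rw [ENNReal.ofReal_le_ofReal_iff (by positivity)] at h3
  have h4 := M.s_nonneg w x
  have h5 : (lam / 3) ^ 2 ≤ M.s w x ^ 2 := by nlinarith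
  exact (abs_le_of_sq_le_sq' h5 h4).2

/-- Stuck elements are isolated. -/
theorem isolated' {M : Model r top} {N0 : ℕ} {C5 u η : ℝ} {m2 : ℕ}
    (J : InpR M N0 C5 u η m2) {δ ℓ : ℝ} (hδ : 0 < δ)
    (hℓ : 0 < ℓ) (m1 : ℕ) (hc1 : Cv M (7 * ℓ) (η * δ) (2 ^ m1))
    {z : Fin n} (hz : Stuck r δ ℓ z) (hT : ht r z + ℓ ≤ ht r top) :
    ∀ x, x ≠ z → cR C5 (m1 + m2) * δ / 3 ≤ M.s z x := by
  intro x hxz
  have hp := M.poset
  have hTz : top ∉ Bset r δ z := fun hc => absurd (hz top (mem_Bset.1 hc)) (not_lt.2 hT)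
  by_cases hx : x ∈ Bset r δ z
  · -- x is above z; use the block of x
    have hx' := mem_Bset.1 hx
    have hzx : r z x := rel_of_mem_Bset hp hx'
    have hsub : Bset r δ x ⊆ Bset r δ z := fun w hw =>
      mem_Bset.2 (Relation.ReflTransGen.trans hx' (mem_Bset.1 hw))
    have hh := M.ht_mono hzx hxz.symm
    have := block' J hδ hℓ m1 hc1 (Bset r δ x) (fun hc => hTz (hsub hc)) x
      (fun w hw => rel_of_mem_Bset hp (mem_Bset.1 hw))
      (fun w hw => by have := hz w (mem_Bset.1 (hsub hw)); linarith)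
      (fun w hw z' hz' hlt => by
        by_contra hcon
        exact hz' (mem_Bset.2 (Relation.ReflTransGen.tail (mem_Bset.1 hw) ⟨hlt, not_le.1 hcon⟩)))
      x (mem_Bset.2 Relation.ReflTransGen.refl) z
      (fun hc => hxz (hp.2.2 _ _ (rel_of_mem_Bset hp (mem_Bset.1 hc)) hzx))
    rwa [M.s_comm] at this
  · exact block' J hδ hℓ m1 hc1 (Bset r δ z) hTz z
      (fun w hw => rel_of_mem_Bset hp (mem_Bset.1 hw)) (fun w hw => hz w (mem_Bset.1 hw))
      (fun w hw z' hz' hlt => by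
        by_contra hcon
        exact hz' (mem_Bset.2 (Relation.ReflTransGen.tail (mem_Bset.1 hw) ⟨hlt, not_le.1 hcon⟩)))
      z (mem_Bset.2 Relation.ReflTransGen.refl) x hx

end Pool.Agent.KSR
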