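import Pool.Agent.KSR.Packing

set_option autoImplicit false

/-!
# Coverings at an arbitrary ratio
-/

open MeasureTheory Pool.Agent.Helper1.Balance

namespace Pool.Agent.KSR

open Pool.Agent.Helper8.KS

variable {n : ℕ} {r : Fin n → Fin n → Prop} {top : Fin n}

/-- Every piece of scale `ρ` is a union of at most `N` pieces of scale `ρ'`. -/
def Cv (M : Model r top) (ρ ρ' N : ℝ) : Prop :=
  ∀ Q : Finset (Fin n), M.IsPiece Q ρ →
    ∃ Qs : Finset (Finset (Fin n)), (Qs.card : ℝ) ≤ N ∧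
      (∀ Q' ∈ Qs, Q' ⊆ Q ∧ M.IsPiece Q' ρ') ∧ ∀ x ∈ Q, ∃ Q' ∈ Qs, x ∈ Q'

theorem Cv.mono {M : Model r top} {ρ ρ' ρ'' N N' : ℝ} (h : Cv M ρ ρ' N) (hρ : ρ' ≤ ρ'')
    (hN : N ≤ N') : Cv M ρ ρ'' N' := by
  intro Q hQ
  obtain ⟨Qs, h1, h2, h3⟩ := h Q hQ
  refine ⟨Qs, h1.trans hN, fun Q' hQ' => ⟨(h2 Q' hQ').1, ?_⟩, h3⟩
  intro x hx y hy
  have h4 := (h2 Q' hQ').2 x hx y hy
  exact ⟨h4.1.trans hρ, by linarith [h4.2]⟩

/-- a packing bound gives a covering bound -/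
theorem cv_of_packing (M : Model r top) (q : ℝ) (hq : 1 ≤ q) (K : ℝ) (hK0 : 0 ≤ K)
    (hK : ∀ S : ℝ, 0 < S → ∀ X : Finset (Fin n),
      (∀ x ∈ X, ∀ y ∈ X, x ≠ y →
        S ≤ M.s x y ∧ M.s x y ≤ 2 * q * S ∧ |ht r x - ht r y| ≤ 2 * q * S) →
      (X.card : ℝ) ≤ K) (ρ : ℝ) (hρ : 0 < ρ) : Cv M ρ (ρ / q) (K * (2 * q)) := by
  classical
  intro Q hQ
  have hq0 : 0 < q := by linarith
  have hρq : 0 < ρ / q := by positivity
  have hρqρ : ρ / q ≤ ρ := div_le_self hρ.le hq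
  rcases Q.eq_empty_or_nonempty with rfl | hne
  · refine ⟨∅, ?_, by simp, by simp⟩
    rw [Finset.card_empty, Nat.cast_zero]
    positivity
  -- a maximal separated set
  obtain ⟨X, hX, hmax⟩ := Finset.exists_max_image
    (Q.powerset.filter (fun X => ∀ x ∈ X, ∀ y ∈ X, x ≠ y → ρ / q ≤ M.s x y)) Finset.card
    ⟨∅, by simp⟩
  rw [Finset.mem_filter, Finset.mem_powerset] at hX
  obtain ⟨hXQ, hsep⟩ := hX
  have e0 : 2 * q * (ρ / q) = 2 * ρ := by field_simp
  have hcard : (X.card : ℝ) ≤ K := by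
    apply hK (ρ / q) hρq X
    intro x hx y hy hxy
    have h1 := hQ x (hXQ hx) y (hXQ hy)
    refine ⟨hsep x hx y hy hxy, ?_, ?_⟩
    · rw [e0]; exact h1.2
    · rw [e0]; linarith [h1.1]
  obtain ⟨m0, hm0, hmin⟩ := Finset.exists_min_image Q (fun x => ht r x) hne
  let ix : Fin n → ℕ := fun x => ⌊(ht r x - ht r m0) / (ρ / q)⌋₊
  let pc : Fin n × ℕ → Finset (Fin n) := fun p =>
    Q.filter (fun x => M.s x p.1 < ρ / q ∧ ix x = p.2)
  have hixn : ∀ x ∈ Q, 0 ≤ (ht r x - ht r m0) / (ρ / q) := fun x hx =>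
    div_nonneg (by linarith [hmin x hx]) hρq.le
  have hixq : ∀ x ∈ Q, ix x < ⌊q⌋₊ + 1 := by
    intro x hx
    rw [Nat.lt_succ_iff]
    apply Nat.floor_mono
    rw [div_le_iff₀ hρq]
    have h1 := (abs_le.mp (hQ x hx m0 hm0).1).2
    have h2 : q * (ρ / q) = ρ := by field_simp
    linarith
  refine ⟨(X ×ˢ (Finset.range (⌊q⌋₊ + 1))).image pc, ?_, ?_, ?_⟩
  · have h1 : ((X ×ˢ (Finset.range (⌊q⌋₊ + 1))).image pc).card ≤ X.card * (⌊q⌋₊ + 1) := by
      refine Finset.card_image_le.trans ?_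
      rw [Finset.card_product, Finset.card_range]
    have h2 : (((X ×ˢ (Finset.range (⌊q⌋₊ + 1))).image pc).card : ℝ) ≤
        (X.card : ℝ) * ((⌊q⌋₊ : ℝ) + 1) := by exact_mod_cast h1
    refine h2.trans ?_
    have h3 : (⌊q⌋₊ : ℝ) ≤ q := Nat.floor_le hq0.le
    exact mul_le_mul hcard (by linarith) (by positivity) hK0
  · intro Q' hQ'
    rw [Finset.mem_image] at hQ'
    obtain ⟨p, _, rfl⟩ := hQ'
    refine ⟨Finset.filter_subset _ _, ?_⟩
    intro x hx y hy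
    simp only [pc, Finset.mem_filter] at hx hy
    obtain ⟨hxQ, hxs, hxh⟩ := hx
    obtain ⟨hyQ, hys, hyh⟩ := hy
    constructor
    · have a1 := Nat.floor_le (hixn x hxQ)
      have a2 := Nat.lt_floor_add_one ((ht r x - ht r m0) / (ρ / q))
      have a3 := Nat.floor_le (hixn y hyQ)
      have a4 := Nat.lt_floor_add_one ((ht r y - ht r m0) / (ρ / q))
      have e1 : ⌊(ht r x - ht r m0) / (ρ / q)⌋₊ = ⌊(ht r y - ht r m0) / (ρ / q)⌋₊ :=
        hxh.trans hyh.symm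
      rw [e1] at a1 a2
      have a5 : |(ht r x - ht r m0) / (ρ / q) - (ht r y - ht r m0) / (ρ / q)| ≤ 1 := by
        rw [abs_le]; constructor <;> linarith
      have e2 : (ht r x - ht r m0) / (ρ / q) - (ht r y - ht r m0) / (ρ / q) =
          (ht r x - ht r y) / (ρ / q) := by rw [← sub_div]; congr 1; ring
      rw [e2, abs_div, abs_of_pos hρq, div_le_one hρq] at a5
      exact a5
    · have := M.s_triangle x p.1 y
      rw [M.s_comm p.1 y] at this
      linarith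
  · intro x hx
    -- x is close to an element of X
    obtain ⟨z, hz, hzs⟩ : ∃ z ∈ X, M.s x z < ρ / q := by
      by_contra hcon
      push Not at hcon
      have hxX : x ∉ X := by
        intro hxX
        have := hcon x hxX
        rw [M.s_self] at this
        linarith
      have hins : insert x X ∈ Q.powerset.filter
          (fun X => ∀ x ∈ X, ∀ y ∈ X, x ≠ y → ρ / q ≤ M.s x y) := by
        rw [Finset.mem_filter, Finset.mem_powerset]
        refine ⟨Finset.insert_subset hx hXQ, ?_⟩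
        intro a ha b hb hab
        rw [Finset.mem_insert] at ha hb
        rcases ha with rfl | ha
        · rcases hb with rfl | hb
          · exact absurd rfl hab
          · exact hcon b hb
        · rcases hb with rfl | hb
          · rw [M.s_comm]; exact hcon a ha
          · exact hsep a ha b hb hab
      have := hmax _ hins
      rw [Finset.card_insert_of_notMem hxX] at this
      omega
    refine ⟨pc (z, ix x), Finset.mem_image_of_mem _ ?_, ?_⟩
    · rw [Finset.mem_product, Finset.mem_range]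
      exact ⟨hz, hixq x hx⟩
    · simp only [pc, Finset.mem_filter]
      exact ⟨hx, hzs, trivial⟩

/-- **Covering at ratio `q`.** -/
theorem cover : ∃ a : ℝ, 1 ≤ a ∧ ∀ ε : ℝ, 0 < ε → ε ≤ 1 / 2 → ∀ q : ℝ, 1 ≤ q →
    ∀ {n : ℕ} {r : Fin n → Fin n → Prop} {top : Fin n} (M : Model r top), Unb ε r →
    ∀ ρ : ℝ, 0 < ρ → Cv M ρ (ρ / q) ((q / ε) ^ (a / ε ^ 2)) := by
  obtain ⟨a, ha, hp⟩ := packing
  refine ⟨2 * a + 1, by linarith, ?_⟩
  intro ε hε hε2 q hq n r top M hU ρ hρ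
  have hεs : 0 < ε ^ 2 := by positivity
  have hεs1 : ε ^ 2 ≤ 1 := by nlinarith
  have hb2 : 2 ≤ q / ε := by
    rw [le_div_iff₀ hε]; linarith
  have hb0 : 0 < q / ε := by linarith
  refine (cv_of_packing M q hq ((2 * q / ε) ^ (a / ε ^ 2)) (by positivity) ?_ ρ hρ).mono le_rfl ?_
  · intro S hS X hX
    exact hp ε hε hε2 (2 * q) (by linarith) M hU S X hS hX
  · have e1 : 2 * q / ε ≤ (q / ε) ^ (2 : ℝ) := by
      have e3 : (q / ε) ^ (2 : ℝ) = (q / ε) * (q / ε) := by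
        rw [show (2 : ℝ) = ((2 : ℕ) : ℝ) by norm_num, Real.rpow_natCast]; ring
      rw [e3, mul_div_assoc]
      gcongr
    have e2 : (2 * q / ε) ^ (a / ε ^ 2) ≤ (q / ε) ^ (2 * (a / ε ^ 2)) := by
      rw [Real.rpow_mul hb0.le]
      exact Real.rpow_le_rpow (by positivity) e1 (by positivity)
    have e3 : 2 * q ≤ (q / ε) ^ (1 / ε ^ 2) := by
      have e4 : 2 * q ≤ q / ε := by
        rw [le_div_iff₀ hε]; nlinarith
      have e5 : (q / ε) ^ (1 : ℝ) ≤ (q / ε) ^ (1 / ε ^ 2) := by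
        apply Real.rpow_le_rpow_of_exponent_le (by linarith)
        rw [le_div_iff₀ hεs]; linarith
      rw [Real.rpow_one] at e5
      linarith
    calc (2 * q / ε) ^ (a / ε ^ 2) * (2 * q)
        ≤ (q / ε) ^ (2 * (a / ε ^ 2)) * (q / ε) ^ (1 / ε ^ 2) := by
          apply mul_le_mul e2 e3 (by positivity) (by positivity)
      _ = (q / ε) ^ ((2 * a + 1) / ε ^ 2) := by
          rw [← Real.rpow_add hb0]
          congr 1
          ring

/-- covering by powers of two -/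
theorem Cv.cov_nat {M : Model r top} {N : ℝ} (h : ∀ ρ : ℝ, 0 < ρ → Cv M ρ (ρ / 2) N) :
    M.Cov ⌊N⌋₊ := by
  intro ρ Q hρ hQ
  obtain ⟨Qs, h1, h2, h3⟩ := h ρ hρ Q hQ
  exact ⟨Qs, Nat.le_floor h1, h2, h3⟩

end Pool.Agent.KSR
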