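import Pool.Agent.KSR.BlockR
import Pool.Agent.Helper8.KS.DenseChain

set_option autoImplicit false

/-!
# Dense chains, with an explicit constant
-/

open MeasureTheory Pool.Agent.Helper1.Balance

namespace Pool.Agent.KSR

open Pool.Agent.Helper8.KS Pool.Agent.Helper1.KSB

theorem exists_exp_ge (K : ℝ) : ∃ e : ℕ, ∀ b : ℝ, 2 ≤ b → K ≤ b ^ e := by
  obtain ⟨e, he⟩ := pow_unbounded_of_one_lt K (show (1 : ℝ) < 2 by norm_num)
  exact ⟨e, fun b hb => he.le.trans (pow_le_pow_left₀ (by norm_num) hb e)⟩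

theorem exists_two_pow (x : ℝ) (hx : 1 ≤ x) : ∃ m : ℕ, x ≤ 2 ^ m ∧ (2 : ℝ) ^ m ≤ 2 * x := by
  have hx0 : 0 < x := by linarith
  obtain ⟨m, hm⟩ : ∃ m : ℕ, m = ⌈Real.logb 2 x⌉₊ := ⟨_, rfl⟩
  have h0 : 0 ≤ Real.logb 2 x := Real.logb_nonneg (by norm_num) hx
  have h1 : Real.logb 2 x ≤ m := by rw [hm]; exact Nat.le_ceil _
  have h2 : (m : ℝ) ≤ Real.logb 2 x + 1 := by rw [hm]; exact (Nat.ceil_lt_add_one h0).le
  have e1 : (2 : ℝ) ^ (Real.logb 2 x) = x := Real.rpow_logb (by norm_num) (by norm_num) hx0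
  refine ⟨m, ?_, ?_⟩
  · rw [← Real.rpow_natCast]
    calc x = (2 : ℝ) ^ (Real.logb 2 x) := e1.symm
      _ ≤ (2 : ℝ) ^ (m : ℝ) := Real.rpow_le_rpow_of_exponent_le (by norm_num) h1
  · rw [← Real.rpow_natCast]
    calc (2 : ℝ) ^ (m : ℝ) ≤ (2 : ℝ) ^ (Real.logb 2 x + 1) :=
          Real.rpow_le_rpow_of_exponent_le (by norm_num) h2
      _ = 2 * x := by rw [Real.rpow_add (by norm_num), e1, Real.rpow_one]; ring

/-- the parameters of the block lemma -/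
theorem exists_inpR : ∃ C5 : ℝ, 1 ≤ C5 ∧ ∃ a : ℝ, 1 ≤ a ∧ ∃ e1 e2 : ℕ, ∀ ε : ℝ, 0 < ε →
    ε ≤ 1 / 2 → ∃ (N0 : ℕ) (u η : ℝ) (m2 : ℕ), 0 < η ∧ 1 / η ≤ (1 / ε) ^ e1 ∧
      (2 : ℝ) ^ m2 ≤ 2 * ((1 / ε) ^ e2) ^ (a / ε ^ 2) ∧
      ∀ {n : ℕ} {r : Fin n → Fin n → Prop} {top : Fin n} (M : Model r top), Unb ε r →
        InpR M N0 C5 u η m2 := by
  obtain ⟨C5, hC5, hsm⟩ := small_rel
  obtain ⟨a, ha, hcover⟩ := cover
  obtain ⟨e0, he0⟩ := exists_exp_ge (2304 * C5 * a)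
  refine ⟨C5, hC5, a, ha, e0 + 3, e0 + 8, ?_⟩
  intro ε hε hε2
  have hC5p : 0 < C5 := by linarith
  have hεs : 0 < ε ^ 2 := by positivity
  set b : ℝ := 1 / ε with hb
  have hb2 : 2 ≤ b := by
    rw [hb, le_div_iff₀ hε]; linarith
  have hb0 : 0 < b := by linarith
  have hb1 : 1 ≤ b := by linarith
  set P : ℝ := a / ε ^ 2 with hP
  have hP0 : 0 < P := by positivity
  have hPb : P = a * b ^ 2 := by rw [hP, hb]; field_simp
  have hx1 : (1 : ℝ) ≤ (2 / ε) ^ P := by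
    apply Real.one_le_rpow _ hP0.le
    rw [le_div_iff₀ hε]; linarith
  set N0 : ℕ := ⌊(2 / ε) ^ P⌋₊ with hN0
  have hN1 : 1 ≤ N0 := by
    rw [hN0]
    exact Nat.le_floor (by exact_mod_cast hx1)
  have hN0le : (N0 : ℝ) ≤ (2 / ε) ^ P := Nat.floor_le (by positivity)
  set u : ℝ := 16 * (5 + 2 * P * (2 / ε)) with hu
  have hu0 : 80 ≤ u := by
    have : 0 ≤ 2 * P * (2 / ε) := by positivity
    rw [hu]; linarith
  have hup : 0 < u := by linarith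
  have husmall : 16 * (N0 : ℝ) ^ 2 * (3 : ℝ) ^ (-u / 16) ≤ 1 / 8 := by
    have h3 : (0 : ℝ) < 3 := by norm_num
    have e1 : -u / 16 = -(5 + 2 * P * (2 / ε)) := by rw [hu]; ring
    rw [e1, Real.rpow_neg h3.le, ← div_eq_mul_inv, div_le_div_iff₀ (by positivity) (by norm_num)]
    have e2 : (N0 : ℝ) ^ 2 ≤ (3 : ℝ) ^ (2 * P * (2 / ε)) := by
      have e3 : 2 / ε ≤ (3 : ℝ) ^ (2 / ε) := by
        have h4 : 1 + 2 / ε * (3 - 1) ≤ (1 + (3 - 1)) ^ (2 / ε) :=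
          one_add_mul_self_le_rpow_one_add (by norm_num)
            (by rw [le_div_iff₀ hε]; linarith)
        have h5 : (1 + (3 - 1) : ℝ) = 3 := by norm_num
        rw [h5] at h4
        have h6 : 0 < 2 / ε := by positivity
        linarith
      have e4 : (N0 : ℝ) ≤ (3 : ℝ) ^ (P * (2 / ε)) := by
        refine hN0le.trans ?_
        rw [mul_comm P, Real.rpow_mul h3.le]
        exact Real.rpow_le_rpow (by positivity) e3 hP0.le
      have e5 : (3 : ℝ) ^ (2 * P * (2 / ε)) = ((3 : ℝ) ^ (P * (2 / ε))) ^ 2 := by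
        rw [← Real.rpow_natCast, ← Real.rpow_mul h3.le]
        congr 1
        push_cast; ring
      rw [e5]
      exact pow_le_pow_left₀ (Nat.cast_nonneg _) e4 2
    rw [Real.rpow_add h3]
    have e6 : (3 : ℝ) ^ (5 : ℝ) = 243 := by
      rw [show (5 : ℝ) = ((5 : ℕ) : ℝ) by norm_num, Real.rpow_natCast]; norm_num
    rw [e6]
    have e7 : (0 : ℝ) < (3 : ℝ) ^ (2 * P * (2 / ε)) := by positivity
    linarith
  set η : ℝ := 1 / (16 * C5 * u) with hη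
  have hη0 : 0 < η := by positivity
  have hη1 : η ≤ 1 := by
    rw [hη, div_le_one (by positivity)]
    nlinarith
  have hηu : 2 * u * η ≤ a0 C5 := by
    unfold a0
    rw [hη]
    apply le_of_eq
    field_simp
    norm_num
  have hηinv : 1 / η = 16 * C5 * u := by rw [hη, one_div_one_div]
  have hηb : 1 / η ≤ b ^ (e0 + 3) := by
    rw [hηinv, pow_add]
    have e1 : u ≤ 144 * a * b ^ 3 := by
      have e2 : u = 80 + 64 * (a * b ^ 3) := by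
        rw [hu, hPb, hb]; field_simp; ring
      have e3 : 1 ≤ a * b ^ 3 := by
        have : (1 : ℝ) ≤ b ^ 3 := one_le_pow₀ hb1
        nlinarith
      linarith
    calc 16 * C5 * u ≤ 16 * C5 * (144 * a * b ^ 3) := by gcongr
      _ = 2304 * C5 * a * b ^ 3 := by ring
      _ ≤ b ^ e0 * b ^ 3 := by
          apply mul_le_mul_of_nonneg_right (he0 b hb2) (by positivity)
  -- the exponent m2
  have hq2 : (1 : ℝ) ≤ 16 / η := by
    rw [le_div_iff₀ hη0]; linarith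
  have hq2b : 16 / η / ε ≤ b ^ (e0 + 8) := by
    have e1 : 16 / η / ε = 16 * (1 / η) * b := by rw [hb]; ring
    rw [e1]
    have e2 : (16 : ℝ) ≤ b ^ 4 := by
      calc (16 : ℝ) = 2 ^ 4 := by norm_num
        _ ≤ b ^ 4 := pow_le_pow_left₀ (by norm_num) hb2 4
    calc 16 * (1 / η) * b ≤ b ^ 4 * b ^ (e0 + 3) * b := by gcongr
      _ = b ^ (e0 + 8) := by ring
  have hx2 : (1 : ℝ) ≤ (16 / η / ε) ^ P := by
    apply Real.one_le_rpow _ hP0.le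
    rw [le_div_iff₀ hε]; linarith
  obtain ⟨m2, hm2, hm2'⟩ := exists_two_pow _ hx2
  refine ⟨N0, u, η, m2, hη0, hηb, ?_, ?_⟩
  · refine hm2'.trans ?_
    have : (16 / η / ε) ^ P ≤ (b ^ (e0 + 8)) ^ P :=
      Real.rpow_le_rpow (by positivity) hq2b hP0.le
    linarith
  intro n r top M hU
  have hcov : M.Cov N0 := Cv.cov_nat (fun ρ hρ => hcover ε hε hε2 2 (by norm_num) M hU ρ hρ)
  exact
    { base :=
        { N0_pos := hN1
          C5_pos := hC5p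
          cov := hcov
          small := fun x y hxy hne w hw => hsm M x y hxy hne w hw
          chain := fun ρ Q hρ hQ x0 hx0 u hu => chaining M N0 hN1 hcov ρ hρ Q hQ x0 hx0 u hu }
      u_pos := hup
      u_small := husmall
      η_pos := hη0
      η_le := hη1
      η_u := hηu
      cov2 := by
        intro g hg
        have h1 := hcover ε hε hε2 (16 / η) hq2 M hU (16 * g) (by positivity)
        have e1 : 16 * g / (16 / η) = η * g := by field_simp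
        rw [e1] at h1
        exact h1.mono le_rfl hm2 }

/-- numerical lemma: the size of `1 / cR` -/
theorem cR_inv_le {C5 : ℝ} (hC5 : 0 < C5) {m1 m2 : ℕ} {X Y : ℝ} (hX : (2 : ℝ) ^ m1 ≤ 2 * X)
    (hY : (2 : ℝ) ^ m2 ≤ 2 * Y) : 1 / cR C5 (m1 + m2) ≤ 64 * C5 * (X * Y) := by
  have e3 : 1 / cR C5 (m1 + m2) = 16 * C5 * (2 ^ m1 * 2 ^ m2) := by
    unfold cR a0
    rw [pow_succ, pow_add]
    field_simp
    ring
  rw [e3]
  have h1 : (0 : ℝ) < 2 ^ m1 := by positivity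
  have h2 : (0 : ℝ) < 2 ^ m2 := by positivity
  have e4 : (2 : ℝ) ^ m1 * 2 ^ m2 ≤ (2 * X) * (2 * Y) :=
    mul_le_mul hX hY h2.le (by linarith)
  calc 16 * C5 * ((2 : ℝ) ^ m1 * 2 ^ m2) ≤ 16 * C5 * ((2 * X) * (2 * Y)) :=
        mul_le_mul_of_nonneg_left e4 (by positivity)
    _ = 64 * C5 * (X * Y) := by ring

/-- numerical lemma: the final packing number -/
theorem final_bound {b : ℝ} (hb2 : 2 ≤ b) {E4 F ap x : ℝ} (hE4 : 0 ≤ E4) (hap : 0 ≤ ap)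
    (hx0 : 0 ≤ x) (hx : x ≤ b ^ (E4 + F * b ^ 2)) :
    x ^ (ap * b ^ 2) ≤ b ^ (((E4 + F) * ap) * b ^ 4) := by
  have hb0 : 0 < b := by linarith
  have hb1 : 1 ≤ b := by linarith
  have hbb1 : 1 ≤ b ^ 2 := one_le_pow₀ hb1
  have e3 : x ^ (ap * b ^ 2) ≤ (b ^ (E4 + F * b ^ 2)) ^ (ap * b ^ 2) :=
    Real.rpow_le_rpow hx0 hx (by positivity)
  refine e3.trans ?_
  rw [← Real.rpow_mul hb0.le]
  apply Real.rpow_le_rpow_of_exponent_le hb1
  have e4 : E4 + F * b ^ 2 ≤ (E4 + F) * b ^ 2 := by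
    have : E4 * 1 ≤ E4 * b ^ 2 := mul_le_mul_of_nonneg_left hbb1 hE4
    linarith
  calc (E4 + F * b ^ 2) * (ap * b ^ 2) ≤ ((E4 + F) * b ^ 2) * (ap * b ^ 2) :=
        mul_le_mul_of_nonneg_right e4 (by positivity)
    _ = _ := by ring

/-- numerical lemma: the ratio of the last packing -/
theorem ratio_bound {b : ℝ} (hb2 : 2 ≤ b) {C5 c0 F : ℝ} (hc0 : 0 ≤ c0) (p0 f2 : ℕ)
    (hf2 : 64 * C5 * (3 * (6 + c0)) ≤ b ^ f2) {k : ℝ} (hk : k ≤ 64 * C5 * b ^ (F * b ^ 2)) :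
    3 * (6 + c0) * b ^ (p0 + 1) * k ≤ b ^ (((f2 + p0 + 1 : ℕ) : ℝ) + F * b ^ 2) := by
  have hb0 : 0 < b := by linarith
  rw [Real.rpow_add hb0, Real.rpow_natCast]
  have h0 : 0 < b ^ (F * b ^ 2) := Real.rpow_pos_of_pos hb0 _
  have h1 : (0 : ℝ) ≤ 3 * (6 + c0) * b ^ (p0 + 1) := by positivity
  calc 3 * (6 + c0) * b ^ (p0 + 1) * k ≤
      3 * (6 + c0) * b ^ (p0 + 1) * (64 * C5 * b ^ (F * b ^ 2)) :=
        mul_le_mul_of_nonneg_left hk h1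
    _ = 64 * C5 * (3 * (6 + c0)) * (b ^ (p0 + 1) * b ^ (F * b ^ 2)) := by ring
    _ ≤ b ^ f2 * (b ^ (p0 + 1) * b ^ (F * b ^ 2)) :=
        mul_le_mul_of_nonneg_right hf2 (by positivity)
    _ = b ^ (f2 + p0 + 1) * b ^ (F * b ^ 2) := by
        rw [← mul_assoc, ← pow_add, add_assoc f2]

/-- if all elements of a window are stuck, the window has few elements -/
theorem window_card (p0 : ℕ) (l3 c0 : ℝ) (hl3 : 1 ≤ l3) (hc0 : 1 ≤ c0) : ∃ F : ℝ,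
    0 ≤ F ∧ ∀ ε : ℝ, 0 < ε → ε ≤ 1 / 2 → ∀ {n : ℕ} {r : Fin n → Fin n → Prop} {top : Fin n}
    (M : Model r top), Unb ε r → ∀ D : ℝ, 1 ≤ D → (∀ x, vr r x ≤ D ^ 2) → ∀ aa : ℝ,
    aa + c0 * D + (2 * l3 + c0) * D ≤ n → ∀ W : Finset (Fin n),
    (∀ z ∈ W, aa ≤ ht r z ∧ ht r z ≤ aa + c0 * D) →
    (∀ z ∈ W, Stuck r (ε ^ p0 * D) ((2 * l3 + c0) * D) z) →
    (W.card : ℝ) ≤ (1 / ε) ^ (F / ε ^ 4) := by
  classical
  obtain ⟨ap, hap, hpack⟩ := packing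
  obtain ⟨ac, hac, hcover⟩ := cover
  obtain ⟨C5, hC5, a, ha, e1, e2, hinp⟩ := exists_inpR
  have hC5p : 0 < C5 := by linarith
  obtain ⟨f1, hf1⟩ := exists_exp_ge (7 * (2 * l3 + c0))
  obtain ⟨f2, hf2⟩ := exists_exp_ge (64 * C5 * (3 * (6 + c0)))
  -- exponents
  have hE10 : (0 : ℝ) ≤ ((f1 + p0 + e1 + 1 : ℕ) : ℝ) := Nat.cast_nonneg _
  have hE40 : (0 : ℝ) ≤ ((f2 + p0 + 1 : ℕ) : ℝ) := Nat.cast_nonneg _
  have he20 : (0 : ℝ) ≤ (e2 : ℝ) := Nat.cast_nonneg _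
  have hF0 : 0 ≤ ((f1 + p0 + e1 + 1 : ℕ) : ℝ) * ac + (e2 : ℝ) * a := by positivity
  refine ⟨(((f2 + p0 + 1 : ℕ) : ℝ) +
    (((f1 + p0 + e1 + 1 : ℕ) : ℝ) * ac + (e2 : ℝ) * a)) * ap, by positivity, ?_⟩
  intro ε hε hε2 n r top M hU D hD1 hv aa hn W hmem hcon
  have hεs : 0 < ε ^ 2 := by positivity
  obtain ⟨b, hb⟩ : ∃ b : ℝ, b = 1 / ε := ⟨_, rfl⟩
  rw [← hb]
  have hb2 : 2 ≤ b := by
    rw [hb, le_div_iff₀ hε]; linarith
  have hb0 : 0 < b := by linarith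
  have hb1 : 1 ≤ b := by linarith
  have hbb1 : 1 ≤ b ^ 2 := one_le_pow₀ hb1
  have hie2 : ∀ x : ℝ, x / ε ^ 2 = x * b ^ 2 := by
    intro x; rw [hb]; field_simp
  have hie4 : ∀ x : ℝ, x / ε ^ 4 = x * b ^ 4 := by
    intro x; rw [hb]; field_simp
  have hbp : ∀ k : ℕ, ε ^ k * b ^ k = 1 := by
    intro k
    rw [← mul_pow, hb, mul_one_div_cancel hε.ne', one_pow]
  rw [hie4]
  have hD0 : 0 < D := by linarith
  obtain ⟨N0, u, η, m2, hη0, hηb, hm2, hJ⟩ := hinp ε hε hε2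
  have J := hJ M hU
  rw [← hb] at hηb hm2
  have hεp : ε ^ p0 ≤ 1 := pow_le_one₀ hε.le (by linarith)
  have hεpp : 0 < ε ^ p0 := by positivity
  obtain ⟨δ, hδd⟩ : ∃ δ : ℝ, δ = ε ^ p0 * D := ⟨_, rfl⟩
  obtain ⟨l, hld⟩ : ∃ l : ℝ, l = (2 * l3 + c0) * D := ⟨_, rfl⟩
  rw [← hδd, ← hld] at hcon
  have hδ : 0 < δ := by rw [hδd]; positivity
  have hδD : δ ≤ D := by
    rw [hδd]
    calc ε ^ p0 * D ≤ 1 * D := mul_le_mul_of_nonneg_right hεp hD0.le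
      _ = D := one_mul D
  have hDδ : D = b ^ p0 * δ := by
    rw [hδd, ← mul_assoc, mul_comm (b ^ p0), hbp, one_mul]
  have hℓ : 0 < l := by rw [hld]; positivity
  have hlD : 3 * D ≤ l := by
    rw [hld]
    exact mul_le_mul_of_nonneg_right (by linarith) hD0.le
  -- the exponent m1
  obtain ⟨q1, hq1⟩ : ∃ q1 : ℝ, q1 = 7 * l / (η * δ) := ⟨_, rfl⟩
  have hηle := J.η_le
  have hηδ : 0 < η * δ := by positivity
  have hηδ' : η * δ ≤ D := by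
    calc η * δ ≤ 1 * δ := mul_le_mul_of_nonneg_right hηle hδ.le
      _ ≤ D := by linarith
  have hq11 : 1 ≤ q1 := by
    rw [hq1, le_div_iff₀ hηδ, one_mul]
    linarith
  have hq1b : q1 / ε ≤ b ^ (f1 + p0 + e1 + 1) := by
    have e3 : q1 / ε = 7 * (2 * l3 + c0) * (b ^ p0 * (1 / η) * b) := by
      rw [hq1, hld, hDδ, hb]
      field_simp
    rw [e3]
    have h7 := hf1 b hb2
    have h8 : b ^ p0 * (1 / η) * b ≤ b ^ p0 * b ^ e1 * b :=
      mul_le_mul_of_nonneg_right (mul_le_mul_of_nonneg_left hηb (by positivity)) hb0.le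
    calc 7 * (2 * l3 + c0) * (b ^ p0 * (1 / η) * b) ≤ b ^ f1 * (b ^ p0 * b ^ e1 * b) :=
          mul_le_mul h7 h8 (by positivity) (by positivity)
      _ = b ^ (f1 + p0 + e1 + 1) := by ring
  have hPc : 0 ≤ ac * b ^ 2 := by positivity
  have hx1 : (1 : ℝ) ≤ (q1 / ε) ^ (ac * b ^ 2) := by
    apply Real.one_le_rpow _ hPc
    rw [le_div_iff₀ hε]; linarith
  obtain ⟨m1, hm1, hm1'⟩ := exists_two_pow _ hx1
  have hc1 : Cv M (7 * l) (η * δ) (2 ^ m1) := by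
    have h1 := hcover ε hε hε2 q1 hq11 M hU (7 * l) (by positivity)
    have e3 : 7 * l / q1 = η * δ := by
      rw [hq1]; field_simp
    rw [e3, hie2] at h1
    exact h1.mono le_rfl hm1
  -- isolation
  have hiso : ∀ z ∈ W, ∀ x, x ≠ z → cR C5 (m1 + m2) * δ / 3 ≤ M.s z x := by
    intro z hz x hxz
    refine isolated' J hδ hℓ m1 hc1 (hcon z hz) ?_ x hxz
    rw [ht_top M, hld]
    obtain ⟨h2, h3⟩ := hmem z hz
    linarith
  have hcRp : 0 < cR C5 (m1 + m2) := cR_pos hC5p _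
  have hcR1 : cR C5 (m1 + m2) ≤ 1 := by
    unfold cR a0
    rw [div_le_one (by positivity)]
    have h1 : (1 : ℝ) ≤ 2 ^ (m1 + m2 + 1) := one_le_pow₀ (by norm_num)
    have h2 : 1 / (8 * C5) ≤ 1 := by
      rw [div_le_one (by positivity)]; linarith
    linarith
  have hcRinv : 1 / cR C5 (m1 + m2) ≤
      64 * C5 * b ^ ((((f1 + p0 + e1 + 1 : ℕ) : ℝ) * ac + (e2 : ℝ) * a) * b ^ 2) := by
    have hX : (2 : ℝ) ^ m1 ≤ 2 * b ^ (((f1 + p0 + e1 + 1 : ℕ) : ℝ) * (ac * b ^ 2)) := by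
      refine hm1'.trans ?_
      have e3 : (q1 / ε) ^ (ac * b ^ 2) ≤
          b ^ (((f1 + p0 + e1 + 1 : ℕ) : ℝ) * (ac * b ^ 2)) := by
        rw [Real.rpow_mul hb0.le, Real.rpow_natCast]
        exact Real.rpow_le_rpow (by positivity) hq1b hPc
      linarith
    have hY : (2 : ℝ) ^ m2 ≤ 2 * b ^ ((e2 : ℝ) * (a * b ^ 2)) := by
      refine hm2.trans (le_of_eq ?_)
      rw [Real.rpow_mul hb0.le, Real.rpow_natCast, ← hie2]
    refine (cR_inv_le hC5p hX hY).trans (le_of_eq ?_)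
    rw [← Real.rpow_add hb0]
    congr 2
    ring
  generalize hcv : cR C5 (m1 + m2) = cv at hiso hcRp hcR1 hcRinv
  obtain ⟨S, hS⟩ : ∃ S : ℝ, S = cv * δ / 3 := ⟨_, rfl⟩
  rw [← hS] at hiso
  have hS0 : 0 < S := by rw [hS]; positivity
  have hSD : S ≤ D := by
    rw [hS]
    have : cv * δ ≤ 1 * D := mul_le_mul hcR1 hδD hδ.le (by norm_num)
    linarith
  obtain ⟨q3, hq3⟩ : ∃ q3 : ℝ, q3 = (6 + c0) * D / S := ⟨_, rfl⟩
  have hq3S : q3 * S = (6 + c0) * D := by rw [hq3]; field_simp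
  have h6D : D ≤ (6 + c0) * D := by
    have h := mul_nonneg (by linarith : (0 : ℝ) ≤ 5 + c0) hD0.le
    linarith
  have hq31 : 1 ≤ q3 := by
    rw [hq3, le_div_iff₀ hS0, one_mul]
    linarith
  have hcardle : (W.card : ℝ) ≤ (q3 / ε) ^ (ap / ε ^ 2) := by
    refine hpack ε hε hε2 q3 hq31 M hU S W hS0 ?_
    intro x hx z hz hxz
    obtain ⟨h1, h2⟩ := hmem x hx
    obtain ⟨h3, h4⟩ := hmem z hz
    have h5 : |ht r x - ht r z| ≤ c0 * D := by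
      rw [abs_le]; constructor <;> linarith
    refine ⟨hiso x hx z (Ne.symm hxz), ?_, ?_⟩
    · rw [hq3S]
      have h6 := s_sq_le M D hD1 hv x z
      have h7 : M.s x z ^ 2 ≤ ((6 + c0) * D) ^ 2 := by
        have hDD : D ≤ D ^ 2 := le_self_pow₀ hD1 (by norm_num)
        have h8 : c0 * D ≤ c0 * D ^ 2 := mul_le_mul_of_nonneg_left hDD (by linarith)
        have h9 : (6 + c0) * D ^ 2 ≤ (6 + c0) ^ 2 * D ^ 2 := by
          have h10 : (6 + c0) ≤ (6 + c0) ^ 2 := le_self_pow₀ (by linarith) (by norm_num)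
          exact mul_le_mul_of_nonneg_right h10 (by positivity)
        calc M.s x z ^ 2 ≤ 6 * D ^ 2 + |ht r x - ht r z| := h6
          _ ≤ 6 * D ^ 2 + c0 * D ^ 2 := by linarith
          _ = (6 + c0) * D ^ 2 := by ring
          _ ≤ (6 + c0) ^ 2 * D ^ 2 := h9
          _ = ((6 + c0) * D) ^ 2 := by ring
      exact (le_abs_self _).trans (abs_le_of_sq_le_sq h7 (by positivity))
    · rw [hq3S]
      linarith
  refine hcardle.trans ?_
  rw [hie2]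
  refine final_bound hb2 hE40 (by linarith) (by positivity) ?_
  have e3 : q3 / ε = 3 * (6 + c0) * b ^ (p0 + 1) * (1 / cv) := by
    rw [hq3, hS, pow_succ]
    rw [show (6 + c0) * D = (6 + c0) * (b ^ p0 * δ) by rw [← hDδ]]
    rw [hb]
    field_simp
  rw [e3]
  exact ratio_bound hb2 (by linarith) p0 f2 (hf2 b hb2) hcRinv

/-- **Dense chains.** -/
theorem dense_chain_poly : ∃ c : ℝ, 1 ≤ c ∧ ∀ (p0 : ℕ) (l3 : ℝ), 1 ≤ l3 → ∃ p : ℝ, 1 ≤ p ∧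
    ∀ ε : ℝ, 0 < ε → ε ≤ 1 / 2 → ∀ {n : ℕ} {r : Fin n → Fin n → Prop} {top : Fin n}
    (M : Model r top), Unb ε r → ∀ D : ℝ, (1 / ε) ^ (p / ε ^ 4) ≤ D →
    (∀ x, vr r x ≤ D ^ 2) → ∀ y : Fin n,
    (l3 + c) * D ≤ ht r y → ht r y + (l3 + c) * D ≤ n →
    ∃ (m : ℕ) (γ : ℕ → Fin n), (∀ i, i < m → Step r (ε ^ p0 * D) (γ i) (γ (i + 1))) ∧
      ht r (γ 0) ≤ ht r y - l3 * D ∧ ht r y + l3 * D ≤ ht r (γ m) := by
  classical
  obtain ⟨c0, hc0, hcount⟩ := count_lower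
  refine ⟨c0 + 1, by linarith, ?_⟩
  intro p0 l3 hl3
  obtain ⟨F, hF, hwin⟩ := window_card p0 l3 c0 hl3 hc0
  refine ⟨F + 1, by linarith, ?_⟩
  intro ε hε hε2 n r top M hU D hD hv y hy1 hy2
  have hε4 : 0 < ε ^ 4 := by positivity
  have hb2 : 2 ≤ 1 / ε := by
    rw [le_div_iff₀ hε]; linarith
  have hb1 : 1 ≤ 1 / ε := by linarith
  have hlt : (1 / ε) ^ (F / ε ^ 4) < (1 / ε) ^ ((F + 1) / ε ^ 4) := by
    apply Real.rpow_lt_rpow_of_exponent_lt (by linarith)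
    rw [div_lt_div_iff_of_pos_right hε4]
    linarith
  have hD1 : 1 ≤ D := (Real.one_le_rpow hb1 (by positivity)).trans hD
  have hD0 : 0 < D := by linarith
  have h3 : 0 ≤ c0 * D := by positivity
  have h4 : 0 ≤ l3 * D := by positivity
  obtain ⟨aa, haa⟩ : ∃ aa : ℝ, aa = ht r y - (l3 + c0) * D := ⟨_, rfl⟩
  have ha1 : 1 ≤ aa := by rw [haa]; linarith
  have ha2 : aa + c0 * D ≤ n := by rw [haa]; linarith
  have hW := hcount r M.poset D hD1 hv aa ha1 ha2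
  have hmem : ∀ z ∈ Finset.univ.filter (fun x => aa ≤ ht r x ∧ ht r x ≤ aa + c0 * D),
      aa ≤ ht r z ∧ ht r z ≤ aa + c0 * D := by
    intro z hz
    simpa using hz
  -- some element of `W` is not stuck
  have hex : ∃ z ∈ Finset.univ.filter (fun x => aa ≤ ht r x ∧ ht r x ≤ aa + c0 * D),
      ¬ Stuck r (ε ^ p0 * D) ((2 * l3 + c0) * D) z := by
    by_contra hcon
    push Not at hcon
    have h1 := hwin ε hε hε2 M hU D hD1 hv aa (by rw [haa]; linarith) _ hmem hcon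
    linarith
  obtain ⟨z, hz, hns⟩ := hex
  obtain ⟨m, γ, hγ0, hstep, hend⟩ := not_stuck_chain r (ε ^ p0 * D) ((2 * l3 + c0) * D) z hns
  obtain ⟨h1, h2⟩ := hmem z hz
  refine ⟨m, γ, hstep, ?_, ?_⟩
  · rw [hγ0]
    linarith
  · linarith

end Pool.Agent.KSR
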