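import Mathlib

set_option autoImplicit false

/-!
# Komlos' strange pigeonhole principle with a bound polynomial in the number of values

If `X 1, ..., X M` are random variables with values in `Fin k` and
`|P (X i < X j) - P (X j < X i)| ≥ β` for all `i ≠ j`, then `M < 4 ^ h` as soon as
`2 * log k < h * β ^ 2`.
-/

open MeasureTheory

namespace Pool.Agent.KSR

section tournament

variable {ι : Type*}

/-- In a tournament with at least `2 * d` vertices some vertex has out-degree at least `d`. -/
theorem exists_half (R : ι → ι → Prop) (A : Finset ι) (d : ℕ)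
    (htot : ∀ i ∈ A, ∀ j ∈ A, i ≠ j → R i j ∨ R j i) (hA : 2 * d ≤ A.card) (hd : 1 ≤ d) :
    ∃ v ∈ A, ∃ B : Finset ι, B ⊆ A ∧ (∀ i ∈ B, R v i) ∧ d ≤ B.card := by
  classical
  by_contra hcon
  push Not at hcon
  have h1 : ∀ v ∈ A, (A.filter (fun i => R v i)).card ≤ d - 1 := by
    intro v hv
    have := hcon v hv (A.filter (fun i => R v i)) (Finset.filter_subset _ _)
      (fun i hi => (Finset.mem_filter.1 hi).2)
    omega
  set P := (A ×ˢ A).filter (fun p => R p.1 p.2) with hP
  have h2 : P.card ≤ A.card * (d - 1) := by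
    have e : P.card = ∑ v ∈ A, (A.filter (fun i => R v i)).card := by
      rw [hP, Finset.card_filter, Finset.sum_product]
      refine Finset.sum_congr rfl fun v _ => ?_
      rw [Finset.card_filter]
    rw [e]
    calc ∑ v ∈ A, (A.filter (fun i => R v i)).card ≤ ∑ _v ∈ A, (d - 1) := Finset.sum_le_sum h1
      _ = A.card * (d - 1) := by rw [Finset.sum_const, smul_eq_mul]
  have h3 : A.offDiag ⊆ P ∪ P.image Prod.swap := by
    rintro ⟨a, b⟩ hab
    rw [Finset.mem_offDiag] at hab
    obtain ⟨ha, hb, hne⟩ := hab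
    rw [Finset.mem_union]
    rcases htot a ha b hb hne with h | h
    · left
      simp [hP, ha, hb, h]
    · right
      rw [Finset.mem_image]
      exact ⟨(b, a), by simp [hP, ha, hb, h], rfl⟩
  have h4 : A.offDiag.card ≤ 2 * P.card := by
    calc A.offDiag.card ≤ (P ∪ P.image Prod.swap).card := Finset.card_le_card h3
      _ ≤ P.card + (P.image Prod.swap).card := Finset.card_union_le _ _
      _ ≤ P.card + P.card := Nat.add_le_add_left Finset.card_image_le _
      _ = 2 * P.card := by ring
  rw [Finset.offDiag_card] at h4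
  obtain ⟨m, hm⟩ : ∃ m, A.card = m := ⟨_, rfl⟩
  rw [hm] at h4 h2 hA
  obtain ⟨e, rfl⟩ : ∃ e, d = e + 1 := ⟨d - 1, by omega⟩
  obtain ⟨f, rfl⟩ : ∃ f, m = f + 1 := ⟨m - 1, by omega⟩
  have h5 : (f + 1) * (f + 1) - (f + 1) = (f + 1) * f := by
    rw [Nat.mul_succ]; simp
  rw [h5] at h4
  have h6 : (f + 1) * f ≤ (f + 1) * (2 * e) := by
    have : e + 1 - 1 = e := by omega
    rw [this] at h2
    calc (f + 1) * f ≤ 2 * P.card := h4
      _ ≤ 2 * ((f + 1) * e) := Nat.mul_le_mul_left _ h2
      _ = (f + 1) * (2 * e) := by ring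
  have h7 := Nat.le_of_mul_le_mul_left h6 (Nat.succ_pos f)
  omega

/-- In a tournament with at least `4 * d` vertices some vertex has in- and out-degree at
least `d`. -/
theorem exists_middle (R : ι → ι → Prop) (S : Finset ι) (d : ℕ)
    (htot : ∀ i ∈ S, ∀ j ∈ S, i ≠ j → R i j ∨ R j i) (hS : 4 * d ≤ S.card) (hd : 1 ≤ d) :
    ∃ v ∈ S, (∃ B : Finset ι, B ⊆ S ∧ (∀ i ∈ B, R i v) ∧ d ≤ B.card) ∧
      (∃ B : Finset ι, B ⊆ S ∧ (∀ i ∈ B, R v i) ∧ d ≤ B.card) := by
  classical
  by_contra hcon
  push Not at hcon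
  set A := S.filter (fun v => ∀ B : Finset ι, B ⊆ S → (∀ i ∈ B, R i v) → B.card < d) with hA
  set A' := S.filter (fun v => ∀ B : Finset ι, B ⊆ S → (∀ i ∈ B, R v i) → B.card < d) with hA'
  have hsub : S ⊆ A ∪ A' := by
    intro v hv
    rw [Finset.mem_union]
    by_cases h : v ∈ A
    · exact Or.inl h
    · right
      rw [hA, Finset.mem_filter] at h
      push Not at h
      obtain ⟨B, hB1, hB2, hB3⟩ := h hv
      rw [hA', Finset.mem_filter]
      refine ⟨hv, ?_⟩
      intro B' hB'1 hB'2
      exact hcon v hv ⟨B, hB1, hB2, hB3⟩ B' hB'1 hB'2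
  have hcard : S.card ≤ A.card + A'.card :=
    (Finset.card_le_card hsub).trans (Finset.card_union_le _ _)
  have h1 : A.card < 2 * d := by
    by_contra h
    push Not at h
    obtain ⟨v, hv, B, hB1, hB2, hB3⟩ := exists_half (fun i j => R j i) A d (by
      intro i hi j hj hij
      exact (htot i (Finset.mem_filter.1 hi).1 j (Finset.mem_filter.1 hj).1 hij).symm) h hd
    have := (Finset.mem_filter.1 hv).2 B (hB1.trans (Finset.filter_subset _ _)) hB2
    omega
  have h2 : A'.card < 2 * d := by
    by_contra h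
    push Not at h
    obtain ⟨v, hv, B, hB1, hB2, hB3⟩ := exists_half R A' d (by
      intro i hi j hj hij
      exact htot i (Finset.mem_filter.1 hi).1 j (Finset.mem_filter.1 hj).1 hij) h hd
    have := (Finset.mem_filter.1 hv).2 B (hB1.trans (Finset.filter_subset _ _)) hB2
    omega
  omega

end tournament

section finite

variable {W : Type*} [Fintype W] {k : ℕ}

/-- The comparison sign. -/
noncomputable def sgc (a b : Fin k) : ℝ := (if a < b then 1 else 0) - (if b < a then 1 else 0)

theorem abs_sgc_le (a b : Fin k) : |sgc a b| ≤ 1 := by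
  unfold sgc
  split_ifs <;> norm_num

theorem sgc_antisymm (a b : Fin k) : sgc a b = - sgc b a := by
  unfold sgc; ring

/-- The balance of two variables. -/
noncomputable def bal (p : W → ℝ) (X Y : W → Fin k) : ℝ := ∑ w, p w * sgc (X w) (Y w)

theorem bal_antisymm (p : W → ℝ) (X Y : W → Fin k) : bal p X Y = - bal p Y X := by
  unfold bal
  rw [← Finset.sum_neg_distrib]
  refine Finset.sum_congr rfl fun w _ => ?_
  rw [sgc_antisymm]; ring

/-- The soft maximum. -/
noncomputable def smax (L : ℝ) (c : Fin k → ℝ) : ℝ :=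
  Real.log (∑ a, Real.exp (L * c a)) / L

theorem sum_exp_pos (hk : 0 < k) (L : ℝ) (c : Fin k → ℝ) : 0 < ∑ a, Real.exp (L * c a) := by
  have : (Finset.univ : Finset (Fin k)).Nonempty := ⟨⟨0, hk⟩, Finset.mem_univ _⟩
  exact Finset.sum_pos (fun a _ => Real.exp_pos _) this

theorem le_smax (hk : 0 < k) {L : ℝ} (hL : 0 < L) (c : Fin k → ℝ) (a : Fin k) :
    c a ≤ smax L c := by
  unfold smax
  rw [le_div_iff₀ hL, Real.le_log_iff_exp_le (sum_exp_pos hk L c), mul_comm]
  exact Finset.single_le_sum (f := fun a => Real.exp (L * c a))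
    (fun a _ => (Real.exp_pos _).le) (Finset.mem_univ a)

theorem smax_zero (hk : 0 < k) (L : ℝ) : smax L (fun _ : Fin k => (0 : ℝ)) = Real.log k / L := by
  unfold smax
  simp

theorem smax_pair (hk : 0 < k) {L : ℝ} (hL : 0 < L) (c f : Fin k → ℝ) (hf : ∀ a, |f a| ≤ 1) :
    smax L (fun a => c a + f a) + smax L (fun a => c a - f a) ≤ 2 * smax L c + L := by
  unfold smax
  rw [← add_div, div_le_iff₀ hL]
  have e : (2 * (Real.log (∑ a, Real.exp (L * c a)) / L) + L) * L =
      2 * Real.log (∑ a, Real.exp (L * c a)) + L ^ 2 := by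
    field_simp
  rw [e]
  have hA := sum_exp_pos hk L (fun a => c a + f a)
  have hB := sum_exp_pos hk L (fun a => c a - f a)
  have hC := sum_exp_pos hk L c
  set A := ∑ a, Real.exp (L * (c a + f a)) with hAd
  set B := ∑ a, Real.exp (L * (c a - f a)) with hBd
  set C := ∑ a, Real.exp (L * c a) with hCd
  have h1 : (A + B) / 2 ≤ C * Real.exp (L ^ 2 / 2) := by
    rw [hAd, hBd, hCd, ← Finset.sum_add_distrib, Finset.sum_div, Finset.sum_mul]
    refine Finset.sum_le_sum fun a _ => ?_
    have e1 : (Real.exp (L * (c a + f a)) + Real.exp (L * (c a - f a))) / 2 =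
        Real.exp (L * c a) * Real.cosh (L * f a) := by
      rw [Real.cosh_eq, mul_add L, mul_sub L, Real.exp_add, Real.exp_sub, Real.exp_neg]
      field_simp
    rw [e1]
    refine mul_le_mul_of_nonneg_left ?_ (Real.exp_pos _).le
    refine (Real.cosh_le_exp_half_sq _).trans ?_
    rw [Real.exp_le_exp]
    have h2 : (L * f a) ^ 2 ≤ L ^ 2 := by
      rw [mul_pow]
      have : f a ^ 2 ≤ 1 := by
        rw [sq_le_one_iff_abs_le_one]; exact hf a
      nlinarith [sq_nonneg L]
    linarith
  have h2 : Real.log A + Real.log B ≤ 2 * Real.log ((A + B) / 2) := by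
    rw [← Real.log_mul hA.ne' hB.ne']
    have e2 : 2 * Real.log ((A + B) / 2) = Real.log (((A + B) / 2) ^ 2) := by
      rw [Real.log_pow]; norm_num
    rw [e2]
    refine Real.log_le_log (by positivity) ?_
    nlinarith [sq_nonneg (A - B)]
  have h3 : Real.log ((A + B) / 2) ≤ Real.log C + L ^ 2 / 2 := by
    have h4 := Real.log_le_log (by positivity) h1
    rwa [Real.log_mul hC.ne' (Real.exp_pos _).ne', Real.log_exp] at h4
  linarith

/-- The main induction. -/
theorem main_ind {ι : Type*} (hk : 0 < k) (p : W → ℝ) (hp : ∀ w, 0 ≤ p w)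
    (hs : ∑ w, p w ≤ 1) (X : ι → W → Fin k) (β L : ℝ) (hL : 0 < L) (h : ℕ) :
    ∀ S : Finset ι, 4 ^ h ≤ S.card →
      (∀ i ∈ S, ∀ j ∈ S, i ≠ j → β ≤ |bal p (X i) (X j)|) →
      ∀ c : W → Fin k → ℝ, ∃ i ∈ S, (∑ w, p w * c w (X i w)) + h * β ≤
        (∑ w, p w * smax L (c w)) + h * (L / 2) := by
  induction h with
  | zero =>
    intro S hS _ c
    have hne : S.Nonempty := by
      rw [← Finset.card_pos]
      exact lt_of_lt_of_le (by norm_num) hS
    obtain ⟨i, hi⟩ := hne
    refine ⟨i, hi, ?_⟩
    have : ∑ w, p w * c w (X i w) ≤ ∑ w, p w * smax L (c w) :=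
      Finset.sum_le_sum fun w _ => mul_le_mul_of_nonneg_left (le_smax hk hL _ _) (hp w)
    simpa using this
  | succ h ih =>
    intro S hS hb c
    obtain ⟨v, hv, ⟨B1, hB1, hB1', hc1⟩, ⟨B2, hB2, hB2', hc2⟩⟩ :=
      exists_middle (fun i j => β ≤ bal p (X i) (X j)) S (4 ^ h) (by
        intro i hi j hj hij
        rcases le_abs.1 (hb i hi j hj hij) with h1 | h1
        · exact Or.inl h1
        · right
          rw [bal_antisymm]; exact h1) (by rw [pow_succ] at hS; linarith)
        (Nat.one_le_pow _ _ (by norm_num))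
    -- the two updates
    have hpair : (∑ w, p w * smax L (fun a => c w a + sgc a (X v w))) +
        (∑ w, p w * smax L (fun a => c w a - sgc a (X v w))) ≤
        2 * (∑ w, p w * smax L (c w)) + L := by
      rw [← Finset.sum_add_distrib]
      calc ∑ w, (p w * smax L (fun a => c w a + sgc a (X v w)) +
            p w * smax L (fun a => c w a - sgc a (X v w)))
          ≤ ∑ w, (2 * (p w * smax L (c w)) + p w * L) := by
            refine Finset.sum_le_sum fun w _ => ?_
            have := mul_le_mul_of_nonneg_left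
              (smax_pair hk hL (c w) (fun a => sgc a (X v w)) (fun a => abs_sgc_le _ _)) (hp w)
            linarith
        _ = 2 * (∑ w, p w * smax L (c w)) + (∑ w, p w) * L := by
            rw [Finset.sum_add_distrib, ← Finset.mul_sum, ← Finset.sum_mul]
        _ ≤ 2 * (∑ w, p w * smax L (c w)) + L := by nlinarith
    rcases le_or_gt (∑ w, p w * smax L (fun a => c w a + sgc a (X v w)))
        ((∑ w, p w * smax L (c w)) + L / 2) with hcase | hcase
    · obtain ⟨i, hi, hi'⟩ := ih B1 hc1 (fun i hi j hj hij => hb i (hB1 hi) j (hB1 hj) hij)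
        (fun w a => c w a + sgc a (X v w))
      refine ⟨i, hB1 hi, ?_⟩
      have e : ∑ w, p w * (c w (X i w) + sgc (X i w) (X v w)) =
          (∑ w, p w * c w (X i w)) + bal p (X i) (X v) := by
        unfold bal
        rw [← Finset.sum_add_distrib]
        exact Finset.sum_congr rfl fun w _ => by ring
      have h2 := hB1' i hi
      push_cast
      linarith
    · obtain ⟨i, hi, hi'⟩ := ih B2 hc2 (fun i hi j hj hij => hb i (hB2 hi) j (hB2 hj) hij)
        (fun w a => c w a - sgc a (X v w))
      refine ⟨i, hB2 hi, ?_⟩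
      have e : ∑ w, p w * (c w (X i w) - sgc (X i w) (X v w)) =
          (∑ w, p w * c w (X i w)) + bal p (X v) (X i) := by
        rw [bal_antisymm p (X v) (X i)]
        unfold bal
        rw [← sub_eq_add_neg, ← Finset.sum_sub_distrib]
        exact Finset.sum_congr rfl fun w _ => by ring
      have h2 := hB2' i hi
      push_cast
      linarith

/-- The finite form of the pigeonhole principle. -/
theorem komlos_fin {ι : Type*} (hk : 0 < k) (p : W → ℝ) (hp : ∀ w, 0 ≤ p w)
    (hs : ∑ w, p w ≤ 1) (X : ι → W → Fin k) (β : ℝ) (hβ : 0 < β) (h : ℕ)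
    (hh : 2 * Real.log k < h * β ^ 2) (S : Finset ι)
    (hb : ∀ i ∈ S, ∀ j ∈ S, i ≠ j → β ≤ |bal p (X i) (X j)|) : S.card < 4 ^ h := by
  by_contra hcon
  push Not at hcon
  obtain ⟨i, _, hi⟩ := main_ind hk p hp hs X β β hβ h S hcon hb (fun _ _ => 0)
  have h0 : ∑ w, p w * smax β (fun _ : Fin k => (0 : ℝ)) ≤ Real.log k / β := by
    rw [← Finset.sum_mul, smax_zero hk]
    have h1 : 0 ≤ Real.log k / β :=
      div_nonneg (Real.log_nonneg (by exact_mod_cast hk)) hβ.le
    nlinarith
  simp only [mul_zero, Finset.sum_const_zero, zero_add] at hi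
  have h2 : h * β ≤ Real.log k / β + h * (β / 2) := by linarith
  have h3 : h * (β / 2) ≤ Real.log k / β := by linarith
  rw [le_div_iff₀ hβ] at h3
  nlinarith

end finite

/-- **Komlos' strange pigeonhole principle**, with a bound polynomial in the number `k` of
values. -/
theorem komlos {k : ℕ} (hk : 0 < k) (β : ℝ) (hβ : 0 < β) (h : ℕ)
    (hh : 2 * Real.log k < h * β ^ 2) {Ω : Type*} [MeasurableSpace Ω]
    (μ : Measure Ω) [IsProbabilityMeasure μ] (M : ℕ) (X : Fin M → Ω → Fin k)
    (hX : ∀ i, Measurable (X i))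
    (hb : ∀ i j, i ≠ j → β ≤ |μ.real {ω | X i ω < X j ω} - μ.real {ω | X j ω < X i ω}|) :
    M < 4 ^ h := by
  classical
  -- the joint law
  have hXm : Measurable (fun ω i => X i ω) := measurable_pi_lambda _ hX
  set ν : Measure (Fin M → Fin k) := μ.map (fun ω i => X i ω) with hν
  have hνp : IsProbabilityMeasure ν := Measure.isProbabilityMeasure_map hXm.aemeasurable
  set p : (Fin M → Fin k) → ℝ := fun w => ν.real {w} with hp
  have hp0 : ∀ w, 0 ≤ p w := fun w => measureReal_nonneg
  have hmeas : ∀ s : Set (Fin M → Fin k), MeasurableSet s := fun s => s.toFinite.measurableSet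
  have hset : ∀ s : Set (Fin M → Fin k), ν.real s = ∑ w, (if w ∈ s then p w else 0) := by
    intro s
    have h1 : s = ⋃ w ∈ (Finset.univ.filter (fun w => w ∈ s)), {w} := by
      ext w; simp
    conv_lhs => rw [h1]
    rw [measureReal_biUnion_finset]
    · rw [Finset.sum_filter]
    · intro a _ b _ hab
      simp [Function.onFun, hab]
    · intro b _; exact hmeas _
  have hsum : ∑ w, p w ≤ 1 := by
    have := hset Set.univ
    simp only [Set.mem_univ, if_true] at this
    rw [← this]
    exact measureReal_le_one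
  have hpr : ∀ i j, μ.real {ω | X i ω < X j ω} =
      ∑ w : Fin M → Fin k, (if w i < w j then p w else 0) := by
    intro i j
    have h1 := hset {w | w i < w j}
    rw [hν, map_measureReal_apply hXm (hmeas _)] at h1
    refine h1.trans (Finset.sum_congr rfl fun w _ => ?_)
    by_cases hw : w i < w j <;> simp [hw]
  have hbal : ∀ i j : Fin M, bal p (fun w => w i) (fun w => w j) =
      μ.real {ω | X i ω < X j ω} - μ.real {ω | X j ω < X i ω} := by
    intro i j
    rw [hpr, hpr, ← Finset.sum_sub_distrib]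
    unfold bal sgc
    refine Finset.sum_congr rfl fun w _ => ?_
    split_ifs <;> ring
  have := komlos_fin hk p hp0 hsum (fun (i : Fin M) (w : Fin M → Fin k) => w i) β hβ h hh
    Finset.univ (by
      intro i _ j _ hij
      rw [hbal]
      exact hb i j hij)
  simpa using this

end Pool.Agent.KSR
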