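import Pool.Agent.Helper60.KS.Swap

/-!
# Kahn-Saks with a rate, row K6: lengths of permutations in adjacent transpositions
-/

set_option autoImplicit false

namespace Pool.Agent.KSR

open Finset Pool.Agent.Helper1.Balance Pool.Agent.Helper18.Interval Pool.Agent.Helper60.KS

/-- `τ` is a product of at most `k` adjacent transpositions -/
def Len {l : ℕ} (k : ℕ) (τ : Equiv.Perm (Fin (l + 1))) : Prop :=
  ∃ L : List (Fin l), L.length ≤ k ∧ (L.map fun i => Equiv.swap i.castSucc i.succ).prod = τ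

variable {l : ℕ}

theorem Len.mono {k k' : ℕ} {τ : Equiv.Perm (Fin (l + 1))} (h : Len k τ) (hk : k ≤ k') :
    Len k' τ := by
  obtain ⟨L, h1, h2⟩ := h
  exact ⟨L, h1.trans hk, h2⟩

theorem Len.one : Len 0 (1 : Equiv.Perm (Fin (l + 1))) := ⟨[], le_rfl, rfl⟩

theorem Len.adj (i : Fin l) : Len 1 (Equiv.swap i.castSucc i.succ) := ⟨[i], le_rfl, by simp⟩

theorem Len.mul {k k' : ℕ} {τ τ' : Equiv.Perm (Fin (l + 1))} (h : Len k τ) (h' : Len k' τ') :
    Len (k + k') (τ * τ') := by
  obtain ⟨L, h1, h2⟩ := h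
  obtain ⟨L', h1', h2'⟩ := h'
  refine ⟨L ++ L', ?_, ?_⟩
  · rw [List.length_append]
    omega
  · rw [List.map_append, List.prod_append, h2, h2']

theorem Len.swap_zero : ∀ (j : ℕ) (hj : j < l + 1),
    Len (2 * j) (Equiv.swap (0 : Fin (l + 1)) ⟨j, hj⟩) := by
  intro j
  induction j with
  | zero =>
    intro hj
    have e : (⟨0, hj⟩ : Fin (l + 1)) = 0 := rfl
    rw [e, Equiv.swap_self]
    exact Len.one
  | succ j ih =>
    intro hj
    have h1 := ih (by omega)
    have ha : Len 1 (Equiv.swap (⟨j, by omega⟩ : Fin (l + 1)) ⟨j + 1, hj⟩) :=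
      Len.adj (⟨j, by omega⟩ : Fin l)
    rcases Nat.eq_zero_or_pos j with h0 | h0
    · subst h0
      exact ha.mono (by omega)
    · have e : Equiv.swap (0 : Fin (l + 1)) ⟨j + 1, hj⟩
          = Equiv.swap (⟨j, by omega⟩ : Fin (l + 1)) ⟨j + 1, hj⟩ *
            Equiv.swap 0 ⟨j, by omega⟩ * Equiv.swap (⟨j, by omega⟩ : Fin (l + 1)) ⟨j + 1, hj⟩ := by
        rw [Equiv.swap_mul_swap_mul_swap, Equiv.swap_comm]
        · intro h
          have := congrArg Fin.val h
          simp at this
          omega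
        · intro h
          have := congrArg Fin.val h
          simp at this
      rw [e]
      exact ((ha.mul h1).mul ha).mono (by omega)

/-- extension of a permutation by a fixed point at `0` -/
def lift (τ : Equiv.Perm (Fin (l + 1))) : Equiv.Perm (Fin (l + 2)) :=
  Equiv.Perm.decomposeFin.symm (0, τ)

theorem lift_zero (τ : Equiv.Perm (Fin (l + 1))) : lift τ 0 = 0 := by
  unfold lift
  rw [Equiv.Perm.decomposeFin_symm_apply_zero]

theorem lift_succ (τ : Equiv.Perm (Fin (l + 1))) (x : Fin (l + 1)) :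
    lift τ x.succ = (τ x).succ := by
  unfold lift
  rw [Equiv.Perm.decomposeFin_symm_apply_succ, Equiv.swap_self, Equiv.refl_apply]

theorem lift_mul (τ τ' : Equiv.Perm (Fin (l + 1))) : lift (τ * τ') = lift τ * lift τ' := by
  apply Equiv.ext
  intro x
  rw [Equiv.Perm.mul_apply]
  induction x using Fin.cases with
  | zero => rw [lift_zero, lift_zero, lift_zero]
  | succ x => rw [lift_succ, lift_succ, lift_succ, Equiv.Perm.mul_apply]

theorem lift_one : lift (1 : Equiv.Perm (Fin (l + 1))) = 1 := by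
  apply Equiv.ext
  intro x
  induction x using Fin.cases with
  | zero => rw [lift_zero, Equiv.Perm.one_apply]
  | succ x => rw [lift_succ, Equiv.Perm.one_apply, Equiv.Perm.one_apply]

theorem lift_adj (i : Fin l) : lift (Equiv.swap i.castSucc i.succ)
    = Equiv.swap i.succ.castSucc i.succ.succ := by
  apply Equiv.ext
  intro x
  induction x using Fin.cases with
  | zero =>
    rw [lift_zero, Equiv.swap_apply_of_ne_of_ne]
    · intro h
      have := congrArg Fin.val h
      simp at this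
    · intro h
      have := congrArg Fin.val h
      simp at this
  | succ x =>
    rw [lift_succ, (Fin.succ_injective _).map_swap, Fin.succ_castSucc]

theorem Len.lift {k : ℕ} {τ : Equiv.Perm (Fin (l + 1))} (h : Len k τ) : Len k (KSR.lift τ) := by
  obtain ⟨L, h1, h2⟩ := h
  refine ⟨L.map Fin.succ, by rw [List.length_map]; exact h1, ?_⟩
  rw [← h2]
  clear h1 h2
  induction L with
  | nil => exact lift_one.symm
  | cons i L ih =>
    rw [List.map_cons, List.map_cons, List.map_cons, List.prod_cons, List.prod_cons, lift_mul,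
      lift_adj, ih]

/-- every permutation of `l + 1` points has length at most `l (l + 1)` -/
theorem len_all : ∀ (l : ℕ) (τ : Equiv.Perm (Fin (l + 1))), Len (l * (l + 1)) τ := by
  intro l
  induction l with
  | zero =>
    intro τ
    have : τ = 1 := Equiv.ext fun x => Subsingleton.elim (α := Fin 1) _ _
    rw [this]
    exact Len.one
  | succ l ih =>
    intro τ
    obtain ⟨⟨p, e⟩, rfl⟩ := Equiv.Perm.decomposeFin.symm.surjective τ
    have h : Equiv.Perm.decomposeFin.symm (p, e) = Equiv.swap 0 p * KSR.lift e := by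
      apply Equiv.ext
      intro x
      rw [Equiv.Perm.mul_apply]
      induction x using Fin.cases with
      | zero => rw [lift_zero, Equiv.Perm.decomposeFin_symm_apply_zero, Equiv.swap_apply_left]
      | succ x => rw [lift_succ, Equiv.Perm.decomposeFin_symm_apply_succ]
    rw [h]
    have h1 : Len (2 * p.val) (Equiv.swap 0 p) := Len.swap_zero p.val p.isLt
    have h2 := h1.mul (ih e).lift
    refine h2.mono ?_
    have hp := p.isLt
    have : 2 * p.val ≤ 2 * (l + 1) := by omega
    calc 2 * p.val + l * (l + 1) ≤ 2 * (l + 1) + l * (l + 1) := by omega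
      _ = (l + 1) * (l + 1 + 1) := by ring

/-- approximate exchangeability of the type word, explicit constant -/
theorem exch_len {k : ℕ} {τ : Equiv.Perm (Fin (l + 1))} (hτ : Len k τ)
    (n : ℕ) (r : Fin n → Fin n → Prop) (I : Fin n → Prop) (hI : ∀ a b, r a b → I b → I a)
    (k0 : ℕ) (hn : k0 + l + 1 ≤ n) (η : ℝ) (hη0 : 0 ≤ η)
    (hη : ∀ (i : ℕ) (hi : i < l), cmp r I (k0 + i) (by omega) ≤ η)
    (f : (Fin (l + 1) → ℝ) → ℝ) (B : ℝ) (hB : ∀ x, |f x| ≤ B) :
    |∑ σ ∈ LX r, f (fun j => word I k0 (l + 1) σ (τ j)) -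
      ∑ σ ∈ LX r, f (word I k0 (l + 1) σ)| ≤ 2 * k * B * η := by
  have hB0 : 0 ≤ B := (abs_nonneg _).trans (hB (fun _ => 0))
  obtain ⟨L, h1, h2⟩ := hτ
  have key : ∀ (L : List (Fin l)) (f : (Fin (l + 1) → ℝ) → ℝ), (∀ x, |f x| ≤ B) →
      |∑ σ ∈ LX r, f (fun j => word I k0 (l + 1) σ
          ((L.map fun i => Equiv.swap i.castSucc i.succ).prod j)) -
        ∑ σ ∈ LX r, f (word I k0 (l + 1) σ)| ≤ 2 * L.length * B * η := by
    intro L
    induction L with
    | nil => intro f _; simp
    | cons i L ih =>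
      intro f hf
      set ρ := (L.map fun i : Fin l => Equiv.swap i.castSucc i.succ).prod with hρ
      rw [List.map_cons, List.prod_cons, ← hρ, List.length_cons]
      have e1 := adj_step hI (k0 := k0) i (by omega) (fun w => f (fun j => w (ρ j))) B
        (fun w => hf _)
      have e1' := e1.trans (mul_le_mul_of_nonneg_left (hη i i.2) (by positivity))
      have e2 := ih f hf
      have e3 : ∑ σ ∈ LX r, f (fun j => word I k0 (l + 1) σ
            ((Equiv.swap i.castSucc i.succ * ρ) j)) - ∑ σ ∈ LX r, f (word I k0 (l + 1) σ) =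
          (∑ σ ∈ LX r, f (fun j => word I k0 (l + 1) σ (Equiv.swap i.castSucc i.succ (ρ j))) -
            ∑ σ ∈ LX r, f (fun j => word I k0 (l + 1) σ (ρ j))) +
          (∑ σ ∈ LX r, f (fun j => word I k0 (l + 1) σ (ρ j)) -
            ∑ σ ∈ LX r, f (word I k0 (l + 1) σ)) := by
        simp only [Equiv.Perm.mul_apply]
        ring
      rw [e3]
      refine (abs_add_le _ _).trans ?_
      have e4 : 2 * ((L.length + 1 : ℕ) : ℝ) * B * η = 2 * B * η + 2 * L.length * B * η := by
        push_cast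
        ring
      rw [e4]
      exact add_le_add e1' e2
  have h3 := key L f hB
  rw [h2] at h3
  refine h3.trans ?_
  have : (L.length : ℝ) ≤ k := by exact_mod_cast h1
  gcongr

/-- approximate exchangeability with the constant `2 L²` -/
theorem exch_poly (L : ℕ) (hL : 0 < L) (τ : Equiv.Perm (Fin L))
      (n : ℕ) (r : Fin n → Fin n → Prop) (I : Fin n → Prop) (hI : ∀ a b, r a b → I b → I a)
      (k0 : ℕ) (hn : k0 + L ≤ n) (η : ℝ) (hη0 : 0 ≤ η)
      (hη : ∀ (i : ℕ) (hi : i + 1 < L), cmp r I (k0 + i) (by omega) ≤ η)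
      (f : (Fin L → ℝ) → ℝ) (B : ℝ) (hB : ∀ x, |f x| ≤ B) :
      |∑ σ ∈ LX r, f (fun j => word I k0 L σ (τ j)) -
        ∑ σ ∈ LX r, f (word I k0 L σ)| ≤ 2 * (L : ℝ) ^ 2 * B * η := by
  obtain ⟨l, rfl⟩ : ∃ l, L = l + 1 := ⟨L - 1, by omega⟩
  have hB0 : 0 ≤ B := (abs_nonneg _).trans (hB (fun _ => 0))
  refine (exch_len (len_all l τ) n r I hI k0 (by omega) η hη0
    (fun i hi => hη i (by omega)) f B hB).trans ?_
  have : ((l * (l + 1) : ℕ) : ℝ) ≤ ((l + 1 : ℕ) : ℝ) ^ 2 := by
    push_cast
    nlinarith [Nat.cast_nonneg (α := ℝ) l]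
  gcongr

end Pool.Agent.KSR
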