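import Pool.Agent.Helper8.KS.Basic
import Pool.Agent.Helper8.KS.Doubling
import Pool.Agent.KSR.Komlos

set_option autoImplicit false

/-!
# Packing and covering at an arbitrary ratio, with explicit constants

In the model of an `ε`-unbalanced poset a set of diameter `q S` whose elements are at pairwise
distance at least `S` has at most `(q / ε) ^ (a / ε ^ 2)` elements, with an absolute constant `a`.
-/

open MeasureTheory Pool.Agent.Helper1.Balance

namespace Pool.Agent.KSR

open Pool.Agent.Helper8.KS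

/-- The main step: many cells. -/
theorem pack_cells {C : ℝ} (hC1 : 1 ≤ C) (hC : ∀ {n : ℕ} {r : Fin n → Fin n → Prop}
    {top : Fin n} (M : Model r top) (x y : Fin n), x ≠ y → ∀ (a w : ℝ), 0 < w →
    M.μ.real {t | a ≤ t x - t y ∧ t x - t y ≤ a + w} ≤ C * w / M.s x y)
    (ε : ℝ) (hε : 0 < ε) (q0 : ℕ) (hq0 : 32 / ε ≤ q0) (q : ℝ) (hq : 1 ≤ q) (k : ℕ)
    (hk : 2 * (q * (4 * q0 + 1)) / (ε / (8 * C)) < k) (h : ℕ)
    (hh : 2 * Real.log k < h * ε ^ 2) {n : ℕ} {r : Fin n → Fin n → Prop}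
    {top : Fin n} (M : Model r top) (hU : Unb ε r) (S : ℝ) (X : Finset (Fin n)) (hS : 0 < S)
    (hX : ∀ x ∈ X, ∀ y ∈ X, x ≠ y →
      S ≤ M.s x y ∧ M.s x y ≤ q * S ∧ |ht r x - ht r y| ≤ q * S) :
    X.card < 4 ^ h := by
  classical
  have hq00 : (0 : ℝ) ≤ q0 := Nat.cast_nonneg _
  have hqp : 0 < q := by linarith
  set u0 : ℝ := 4 * q0 with hu0
  have hu0n : 0 ≤ u0 := by positivity
  have htail : 4 * (3 : ℝ) ^ (-u0 / 4) ≤ ε / 8 := by
    have e1 : -u0 / 4 = -(q0 : ℝ) := by rw [hu0]; ring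
    rw [e1, Real.rpow_neg (by norm_num), Real.rpow_natCast]
    have e2 : (q0 : ℝ) ≤ (3 : ℝ) ^ q0 := by
      exact_mod_cast (Nat.lt_pow_self (n := q0) (a := 3) (by norm_num)).le
    have e3 : 32 / ε ≤ (3 : ℝ) ^ q0 := hq0.trans e2
    rw [← div_eq_mul_inv, div_le_div_iff₀ (by positivity) (by norm_num)]
    rw [div_le_iff₀ hε] at e3
    linarith
  set Lam : ℝ := q * (u0 + 1) with hLam
  have hLam0 : 0 < Lam := by positivity
  set θ : ℝ := ε / (8 * C) with hθ
  have hθ0 : 0 < θ := by positivity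
  have hk0 : 0 < k := by
    have : (0 : ℝ) < k := lt_trans (by positivity) hk
    exact_mod_cast this
  rcases X.eq_empty_or_nonempty with h0 | ⟨x1, hx1⟩
  · rw [h0, Finset.card_empty]; positivity
  -- the cell index
  set zz : Fin n → (Fin n → ℝ) → ℝ := fun x t => (t x - t x1 + Lam * S) / (θ * S) with hzz
  set XX : Fin n → (Fin n → ℝ) → Fin k := fun x t => cellIx k hk0 (zz x t) with hXX
  have hθS : 0 < θ * S := by positivity
  have hzmeas : ∀ x, Measurable (zz x) := by
    intro x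
    exact (((measurable_pi_apply x).sub (measurable_pi_apply x1)).add_const _).div_const _
  have hmeas : ∀ x, Measurable (XX x) := fun x => (measurable_cellIx k hk0).comp (hzmeas x)
  have hmono : ∀ x y (t : Fin n → ℝ), t x ≤ t y → XX x t ≤ XX y t := by
    intro x y t hxy
    refine cellIx_mono k hk0 ?_
    show (t x - t x1 + Lam * S) / (θ * S) ≤ (t y - t x1 + Lam * S) / (θ * S)
    exact div_le_div_of_nonneg_right (by linarith) hθS.le
  -- tails
  have hout : ∀ x ∈ X, M.μ.real {t | Lam * S ≤ |t x - t x1|} ≤ ε / 8 := by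
    intro x hx
    have hs4 : M.s x x1 ≤ q * S := by
      by_cases hxx : x = x1
      · rw [hxx, M.s_self]; positivity
      · exact (hX x hx x1 hx1 hxx).2.1
    have hh : |ht r x - ht r x1| ≤ q * S := by
      by_cases hxx : x = x1
      · rw [hxx, sub_self, abs_zero]; positivity
      · exact (hX x hx x1 hx1 hxx).2.2
    refine le_trans (measureReal_mono ?_) ((M.tail x x1 (q * S) (by positivity) hs4 u0 hu0n).trans
      htail)
    intro t ht'
    simp only [Set.mem_ofPred_eq] at ht' ⊢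
    unfold Model.cd
    have h1 := abs_sub_abs_le_abs_sub (t x - t x1) (ht r x - ht r x1)
    have h2 : Lam * S = u0 * (q * S) + q * S := by rw [hLam]; ring
    linarith
  -- equal cells
  have heq : ∀ x ∈ X, ∀ y ∈ X, x ≠ y → M.μ.real {t | XX x t = XX y t} ≤ ε / 2 := by
    intro x hx y hy hxy
    have hsb := hC M x y hxy (-(θ * S)) (2 * (θ * S)) (by positivity)
    have hsS := (hX x hx y hy hxy).1
    have hsb2 : M.μ.real {t | -(θ * S) ≤ t x - t y ∧ t x - t y ≤ -(θ * S) + 2 * (θ * S)} ≤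
        ε / 4 := by
      refine hsb.trans ?_
      rw [div_le_iff₀ (lt_of_lt_of_le hS hsS)]
      have e1 : C * (2 * (θ * S)) = ε / 4 * S := by
        rw [hθ]; field_simp; ring
      rw [e1]
      exact mul_le_mul_of_nonneg_left hsS (by positivity)
    have hsub : {t : Fin n → ℝ | XX x t = XX y t} ⊆
        ({t | -(θ * S) ≤ t x - t y ∧ t x - t y ≤ -(θ * S) + 2 * (θ * S)} ∪
          {t | Lam * S ≤ |t x - t x1|}) ∪ {t | Lam * S ≤ |t y - t x1|} := by
      intro t ht'
      by_contra hcon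
      simp only [Set.mem_union, Set.mem_ofPred_eq, not_or, not_le, not_and] at hcon ht'
      obtain ⟨⟨h1, h2⟩, h3⟩ := hcon
      have hrange : ∀ z : Fin n, |t z - t x1| < Lam * S → 0 ≤ zz z t ∧ zz z t < k := by
        intro z hz
        rw [abs_lt] at hz
        constructor
        · exact div_nonneg (by linarith [hz.1]) hθS.le
        · refine lt_of_le_of_lt ?_ hk
          show (t z - t x1 + Lam * S) / (θ * S) ≤ 2 * Lam / θ
          rw [div_le_div_iff₀ hθS hθ0]
          have : (t z - t x1 + Lam * S) * θ ≤ (Lam * S + Lam * S) * θ :=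
            mul_le_mul_of_nonneg_right (by linarith [hz.2]) hθ0.le
          linarith
      have hx' := hrange x h2
      have hy' := hrange y h3
      have h4 := cellIx_eq k hk0 _ _ hx'.1 hx'.2 hy'.1 hy'.2 ht'
      have h5 : zz x t - zz y t = (t x - t y) / (θ * S) := by
        show (t x - t x1 + Lam * S) / (θ * S) - (t y - t x1 + Lam * S) / (θ * S) = _
        rw [← sub_div]; congr 1; ring
      rw [h5, abs_div, abs_of_pos hθS, div_lt_one hθS, abs_lt] at h4
      have := h1 h4.1.le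
      linarith [h4.2]
    refine (measureReal_mono hsub).trans ?_
    refine (measureReal_union_le _ _).trans ?_
    have := measureReal_union_le (μ := M.μ)
      {t : Fin n → ℝ | -(θ * S) ≤ t x - t y ∧ t x - t y ≤ -(θ * S) + 2 * (θ * S)}
      {t | Lam * S ≤ |t x - t x1|}
    have := hout x hx
    have := hout y hy
    linarith
  -- comparison
  have hms : ∀ x y : Fin n, MeasurableSet {t : Fin n → ℝ | t x < t y} := fun x y =>
    measurableSet_lt (measurable_pi_apply x) (measurable_pi_apply y)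
  have hcmp : ∀ x ∈ X, ∀ y ∈ X, x ≠ y → ε ≤
      |M.μ.real {t | XX x t < XX y t} - M.μ.real {t | XX y t < XX x t}| := by
    intro x hx y hy hxy
    have hsum : M.μ.real {t | t x < t y} + M.μ.real {t | t y < t x} = 1 := by
      have h1 := measureReal_add_measureReal_compl (μ := M.μ) (hms x y)
      rw [probReal_univ] at h1
      have h2 : M.μ.real {t : Fin n → ℝ | t x < t y}ᶜ = M.μ.real {t | t y < t x} := by
        refine measureReal_congr ?_
        have h0 : ∀ᵐ t ∂M.μ, t x - t y ≠ 0 := by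
          have := M.noatom x y hxy 0
          exact compl_mem_ae_iff.2 this
        filter_upwards [h0] with t ht'
        refine propext ?_
        show ¬ (t x < t y) ↔ t y < t x
        constructor
        · intro h
          exact lt_of_le_of_ne (not_lt.1 h) (fun h' => ht' (by rw [h']; ring))
        · intro h; exact not_lt.2 h.le
      rw [h2] at h1
      exact h1
    have hunb := hU x y hxy
    rw [← M.prob_lt x y hxy] at hunb
    have key : ∀ a b : Fin n, M.μ.real {t | XX a t < XX b t} ≤ M.μ.real {t | t a < t b} := by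
      intro a b
      refine measureReal_mono ?_
      intro t ht'
      by_contra hcon
      have := hmono b a t (not_lt.1 hcon)
      exact absurd ht' (not_lt.2 this)
    have key2 : ∀ a b : Fin n, M.μ.real {t | t a < t b} ≤
        M.μ.real {t | XX a t < XX b t} + M.μ.real {t | XX a t = XX b t} := by
      intro a b
      refine le_trans (measureReal_mono ?_) (measureReal_union_le _ _)
      intro t ht'
      rcases lt_or_eq_of_le (hmono a b t (le_of_lt ht')) with h | h
      · exact Or.inl h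
      · exact Or.inr h
    have k1 := key x y
    have k2 := key y x
    have k3 := key2 x y
    have k4 := key2 y x
    have k5 := heq x hx y hy hxy
    have k6 := heq y hy x hx (Ne.symm hxy)
    rcases le_abs.1 hunb with h | h
    · refine le_trans ?_ (le_abs_self _)
      linarith
    · rw [abs_sub_comm]
      refine le_trans ?_ (le_abs_self _)
      linarith
  -- apply Komlos
  exact Pool.Agent.KSR.komlos hk0 ε hε h hh M.μ X.card
    (fun i => XX (X.equivFin.symm i)) (fun i => hmeas _) (by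
    intro i j hij
    refine hcmp _ (X.equivFin.symm i).2 _ (X.equivFin.symm j).2 ?_
    intro h
    exact hij (X.equivFin.symm.injective (Subtype.ext h)))

/-- **Packing at ratio `q`.** -/
theorem packing : ∃ a : ℝ, 1 ≤ a ∧ ∀ ε : ℝ, 0 < ε → ε ≤ 1 / 2 → ∀ q : ℝ, 1 ≤ q →
    ∀ {n : ℕ} {r : Fin n → Fin n → Prop} {top : Fin n} (M : Model r top), Unb ε r →
    ∀ (S : ℝ) (X : Finset (Fin n)), 0 < S →
    (∀ x ∈ X, ∀ y ∈ X, x ≠ y →
      S ≤ M.s x y ∧ M.s x y ≤ q * S ∧ |ht r x - ht r y| ≤ q * S) →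
    (X.card : ℝ) ≤ (q / ε) ^ (a / ε ^ 2) := by
  obtain ⟨C, hC1, hC⟩ := small_ball
  -- k ≤ b^p with b = q/ε ≥ 2
  obtain ⟨p, hp⟩ : ∃ p : ℕ, 3000 * C ≤ 2 ^ p := by
    obtain ⟨p, hp⟩ := pow_unbounded_of_one_lt (3000 * C) (show (1 : ℝ) < 2 by norm_num)
    exact ⟨p, hp.le⟩
  have hp1 : (0 : ℝ) ≤ p := Nat.cast_nonneg _
  have hlog4 : 0 < Real.log 4 := Real.log_pos (by norm_num)
  refine ⟨Real.log 4 * (2 * ((p : ℝ) + 2) + 1 / Real.log 2) + 1, ?_, ?_⟩
  · have h2 : 0 < Real.log 2 := Real.log_pos (by norm_num)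
    have : 0 ≤ Real.log 4 * (2 * ((p : ℝ) + 2) + 1 / Real.log 2) := by positivity
    linarith
  intro ε hε hε2 q hq n r top M hU S X hS hX
  have hC0 : 0 < C := by linarith
  have hlog2 : 0 < Real.log 2 := Real.log_pos (by norm_num)
  set b : ℝ := q / ε with hb
  have hb2 : 2 ≤ b := by
    rw [hb, le_div_iff₀ hε]; linarith
  have hb0 : 0 < b := by linarith
  have hε1 : 1 / ε ≤ b := by
    rw [hb]
    exact div_le_div_of_nonneg_right hq hε.le
  have hlb : Real.log 2 ≤ Real.log b := Real.log_le_log (by norm_num) hb2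
  have hlb0 : 0 < Real.log b := by linarith
  obtain ⟨q0, hq0⟩ : ∃ q0 : ℕ, q0 = ⌈32 / ε⌉₊ := ⟨_, rfl⟩
  have hq0' : 32 / ε ≤ q0 := by rw [hq0]; exact Nat.le_ceil _
  have hq0'' : (q0 : ℝ) ≤ 33 / ε := by
    have h1 := Nat.ceil_lt_add_one (show 0 ≤ 32 / ε by positivity)
    rw [← hq0] at h1
    have h2 : (1 : ℝ) ≤ 1 / ε := by
      rw [le_div_iff₀ hε]; linarith
    have h3 : 33 / ε = 32 / ε + 1 / ε := by ring
    linarith
  set K : ℝ := 2 * (q * (4 * q0 + 1)) / (ε / (8 * C)) with hK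
  have hK0 : 0 ≤ K := by positivity
  obtain ⟨k, hk⟩ : ∃ k : ℕ, k = ⌊K⌋₊ + 1 := ⟨_, rfl⟩
  have hk' : K < k := by
    rw [hk]; push_cast; exact Nat.lt_floor_add_one K
  have hk'' : (k : ℝ) ≤ K + 1 := by
    rw [hk]; push_cast
    linarith [Nat.floor_le hK0]
  have hkb : (k : ℝ) ≤ b ^ (p + 2) := by
    have e1 : K ≤ 2400 * C * b ^ 2 := by
      rw [hK, div_le_iff₀ (by positivity)]
      have e2 : (4 * (q0 : ℝ) + 1) ≤ 134 / ε := by
        have : (1 : ℝ) ≤ 1 / ε := by
          rw [le_div_iff₀ hε]; linarith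
        have h3 : 134 / ε = 4 * (33 / ε) + 2 * (1 / ε) := by ring
        linarith
      have e3 : 2 * (q * (4 * q0 + 1)) ≤ 2 * (q * (134 / ε)) := by gcongr
      refine e3.trans ?_
      have e4 : 2400 * C * b ^ 2 * (ε / (8 * C)) = 300 * (q * (q / ε)) := by
        rw [hb]; field_simp; ring
      rw [e4]
      have e5 : 134 / ε ≤ 134 * (q / ε) := by
        rw [← mul_div_assoc]
        exact div_le_div_of_nonneg_right (by linarith) hε.le
      have e6 : q * (134 / ε) ≤ q * (134 * (q / ε)) := by gcongr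
      have e7 : 0 ≤ q * (q / ε) := by positivity
      linarith
    have e2 : (1 : ℝ) ≤ C * b ^ 2 := by nlinarith [sq_nonneg b]
    calc (k : ℝ) ≤ 2400 * C * b ^ 2 + 1 := by linarith
      _ ≤ 3000 * C * b ^ 2 := by nlinarith
      _ ≤ 2 ^ p * b ^ 2 := by gcongr
      _ ≤ b ^ p * b ^ 2 := by gcongr
      _ = b ^ (p + 2) := by rw [pow_add]
  have hk0 : (0 : ℝ) < k := lt_of_le_of_lt hK0 hk'
  have hlk : Real.log k ≤ (p + 2) * Real.log b := by
    have h1 := Real.log_le_log hk0 hkb
    rwa [Real.log_pow, Nat.cast_add, Nat.cast_ofNat] at h1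
  obtain ⟨h, hh⟩ : ∃ h : ℕ, h = ⌊2 * Real.log k / ε ^ 2⌋₊ + 1 := ⟨_, rfl⟩
  have hk1 : (1 : ℝ) ≤ k := by
    have : 0 < k := by exact_mod_cast hk0
    exact_mod_cast this
  have hlk0 : 0 ≤ Real.log k := Real.log_nonneg hk1
  have hh1 : 2 * Real.log k < h * ε ^ 2 := by
    have := Nat.lt_floor_add_one (2 * Real.log k / ε ^ 2)
    rw [div_lt_iff₀ (by positivity)] at this
    rw [hh]; push_cast; exact this
  have hh2 : (h : ℝ) ≤ 2 * Real.log k / ε ^ 2 + 1 := by
    rw [hh]; push_cast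
    linarith [Nat.floor_le (show 0 ≤ 2 * Real.log k / ε ^ 2 by positivity)]
  have hX4 := pack_cells hC1 hC ε hε q0 hq0' q hq k hk' h hh1 M hU S X hS hX
  have hX5 : (X.card : ℝ) ≤ (4 : ℝ) ^ h := by exact_mod_cast hX4.le
  refine hX5.trans ?_
  have e1 : (4 : ℝ) ^ h = Real.exp (Real.log 4 * h) := by
    rw [Real.exp_mul, Real.exp_log (by norm_num), Real.rpow_natCast]
  have e2 : b ^ ((Real.log 4 * (2 * ((p : ℝ) + 2) + 1 / Real.log 2) + 1) / ε ^ 2) =
      Real.exp (Real.log b *
        ((Real.log 4 * (2 * ((p : ℝ) + 2) + 1 / Real.log 2) + 1) / ε ^ 2)) := by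
    rw [Real.exp_mul, Real.exp_log hb0]
  rw [e1, e2, Real.exp_le_exp]
  have hεs : 0 < ε ^ 2 := by positivity
  have hεs1 : ε ^ 2 ≤ 1 := by nlinarith
  have e3 : (h : ℝ) ≤ (2 * ((p : ℝ) + 2) + 1 / Real.log 2) * (Real.log b / ε ^ 2) := by
    have e4 : 2 * Real.log k / ε ^ 2 ≤ 2 * ((p : ℝ) + 2) * (Real.log b / ε ^ 2) := by
      rw [mul_div_assoc', div_le_div_iff_of_pos_right hεs]
      linarith
    have e5 : (1 : ℝ) ≤ 1 / Real.log 2 * (Real.log b / ε ^ 2) := by
      rw [div_mul_div_comm, one_mul, le_div_iff₀ (by positivity)]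
      nlinarith
    have e6 : (2 * ((p : ℝ) + 2) + 1 / Real.log 2) * (Real.log b / ε ^ 2) =
        2 * ((p : ℝ) + 2) * (Real.log b / ε ^ 2) + 1 / Real.log 2 * (Real.log b / ε ^ 2) := by
      ring
    linarith
  have e7 : 0 ≤ Real.log b / ε ^ 2 := by positivity
  calc Real.log 4 * h ≤ Real.log 4 *
        ((2 * ((p : ℝ) + 2) + 1 / Real.log 2) * (Real.log b / ε ^ 2)) := by gcongr
    _ ≤ Real.log 4 * ((2 * ((p : ℝ) + 2) + 1 / Real.log 2) * (Real.log b / ε ^ 2)) +
        Real.log b / ε ^ 2 := by linarith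
    _ = _ := by ring

end Pool.Agent.KSR
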