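import Pool.Agent.Helper8.KS.TheoremI
import Pool.Agent.KSR.Closeness
import Pool.Agent.KSR.Dense

set_option autoImplicit false

open MeasureTheory Pool.Agent.Helper1.Balance Pool.Agent.Helper8.KS

namespace Pool.Agent.KSR

/-- the statement of `dense_chain_poly` -/
def DenseChainPoly : Prop :=
  ∃ c : ℝ, 1 ≤ c ∧ ∀ (p0 : ℕ) (l3 : ℝ), 1 ≤ l3 → ∃ p : ℝ, 1 ≤ p ∧ ∀ ε : ℝ, 0 < ε → ε ≤ 1 / 2 →
    ∀ {n : ℕ} {r : Fin n → Fin n → Prop} {top : Fin n} (M : Model r top), Unb ε r →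
    ∀ D : ℝ, (1 / ε) ^ (p / ε ^ 4) ≤ D → (∀ x, vr r x ≤ D ^ 2) → ∀ y : Fin n,
    (l3 + c) * D ≤ ht r y → ht r y + (l3 + c) * D ≤ n →
    ∃ (m : ℕ) (γ : ℕ → Fin n), (∀ i, i < m → Step r (ε ^ p0 * D) (γ i) (γ (i + 1))) ∧
      ht r (γ 0) ≤ ht r y - l3 * D ∧ ht r y + l3 * D ≤ ht r (γ m)

/-- a sequence of steps is a chain -/
private theorem chain_rel {n : ℕ} {r : Fin n → Fin n → Prop} (hr : IsPoset r) {δ : ℝ} {m : ℕ}
    {γ : ℕ → Fin n} (hγ : ∀ i, i < m → Step r δ (γ i) (γ (i + 1))) :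
    ∀ i j, i ≤ j → j ≤ m → r (γ i) (γ j) := by
  intro i j hij
  induction j, hij using Nat.le_induction with
  | base => intro _; exact hr.1 _
  | succ k hk ih =>
    intro hkm
    exact hr.2.1 _ _ _ (ih (by omega)) (hγ k (by omega)).1

/-- the threshold `(1/ε)^(p/ε^4)` is increasing in `p` -/
theorem thr_mono {p q ε : ℝ} (hε : 0 < ε) (hε' : ε ≤ 1 / 2) (hpq : p ≤ q) :
    (1 / ε) ^ (p / ε ^ 4) ≤ (1 / ε) ^ (q / ε ^ 4) := by
  have h1 : 1 ≤ 1 / ε := by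
    rw [le_div_iff₀ hε]; linarith
  exact Real.rpow_le_rpow_of_exponent_le h1 (by gcongr)

/-- the threshold is at least `2^p` -/
theorem thr_ge {p ε : ℝ} (hp : 0 ≤ p) (hε : 0 < ε) (hε' : ε ≤ 1 / 2) :
    (2 : ℝ) ^ p ≤ (1 / ε) ^ (p / ε ^ 4) := by
  have h1 : 2 ≤ 1 / ε := by
    rw [le_div_iff₀ hε]; linarith
  have h2 : p ≤ p / ε ^ 4 := by
    rw [le_div_iff₀ (by positivity)]
    have h3 : ε ^ 4 ≤ 1 := pow_le_one₀ hε.le (by linarith)
    nlinarith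
  calc (2 : ℝ) ^ p ≤ (1 / ε) ^ p := Real.rpow_le_rpow (by norm_num) h1 hp
    _ ≤ (1 / ε) ^ (p / ε ^ 4) := Real.rpow_le_rpow_of_exponent_le (by linarith) h2

/-- Section 10, in the model. -/
theorem theoremI_model_poly (hDC : DenseChainPoly) : ∃ p : ℝ, 1 ≤ p ∧
    ∃ c : ℝ, 1 ≤ c ∧ ∀ ε : ℝ, 0 < ε → ε ≤ 1 / 2 →
    ∀ {n : ℕ} {r : Fin n → Fin n → Prop} {top : Fin n}
    (M : Model r top), Unb ε r → ∀ D : ℝ, (1 / ε) ^ (p / ε ^ 4) ≤ D → (∀ x, vr r x ≤ D ^ 2) →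
    ∀ y : Fin n, vr r y = D ^ 2 → c * D ≤ ht r y → ht r y + c * D ≤ n → False := by
  classical
  obtain ⟨l2, hl2, hfar⟩ := far_sum
  obtain ⟨κ2, hκ2, D1, hD1, hnear⟩ := near_sum l2 hl2
  obtain ⟨pc, hclose⟩ := closeness_poly
  obtain ⟨c, hc, hdense⟩ := hDC
  obtain ⟨k, hk⟩ := exists_pow_lt_of_lt_one hκ2 (by norm_num : (1 : ℝ) / 2 < 1)
  obtain ⟨p, hp, hdense⟩ := hdense (pc + k) (l2 + 128) (by linarith)
  obtain ⟨N, hN⟩ := pow_unbounded_of_one_lt D1 (one_lt_two : (1 : ℝ) < 2)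
  refine ⟨max p N, le_trans hp (le_max_left _ _), l2 + 128 + c, by linarith, ?_⟩
  intro ε hε hε' n r top M hU D hD hv y hvy h1 h2
  have hDD0 : (1 / ε) ^ (p / ε ^ 4) ≤ D := le_trans (thr_mono hε hε' (le_max_left _ _)) hD
  have hDD1 : D1 ≤ D := by
    refine le_trans ?_ (le_trans (thr_mono hε hε' (le_max_right _ _)) hD)
    refine le_trans hN.le ?_
    have := thr_ge (Nat.cast_nonneg N : (0 : ℝ) ≤ N) hε hε'
    rwa [Real.rpow_natCast] at this
  have hD1' : 1 ≤ D := by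
    refine le_trans ?_ hDD0
    refine le_trans ?_ (thr_ge (by linarith : (0 : ℝ) ≤ p) hε hε')
    exact Real.one_le_rpow (by norm_num) (by linarith)
  obtain ⟨m, γ, hγ, hlo, hhi⟩ := hdense ε hε hε' M hU D hDD0 hv y h1 h2
  set G : Set (Fin n) := {z | ∃ i, i ≤ m ∧ z = γ i} with hGdef
  have hG : ∀ a ∈ G, ∀ b ∈ G, r a b ∨ r b a := by
    rintro a ⟨i, hi, rfl⟩ b ⟨j, hj, rfl⟩
    rcases le_total i j with hij | hij
    · exact Or.inl (chain_rel M.poset hγ i j hij hj)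
    · exact Or.inr (chain_rel M.poset hγ j i hij hi)
  have hcl : ∀ x, |ht r x - ht r y| ≤ l2 * D →
      ∃ z ∈ G, M.s x z ≤ κ2 * D ∧ |ht r x - ht r z| ≤ κ2 * D := by
    intro x hx
    obtain ⟨i, hi, hs, hh⟩ := hclose ε hε hε' l2 hl2 M hU D hD1' hv y (ε ^ (pc + k))
      (by positivity) m γ hγ hlo hhi x hx
    have e : (1 / ε) ^ pc * ε ^ (pc + k) * D ≤ κ2 * D := by
      have e1 : (1 / ε) ^ pc * ε ^ (pc + k) = ε ^ k := by
        rw [pow_add, ← mul_assoc, ← mul_pow, one_div_mul_cancel hε.ne', one_pow, one_mul]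
      rw [e1]
      have e2 : ε ^ k ≤ κ2 := (pow_le_pow_left₀ hε.le hε' k).trans hk.le
      exact mul_le_mul_of_nonneg_right e2 (by linarith)
    exact ⟨γ i, ⟨i, hi, rfl⟩, hs.trans e, hh.trans e⟩
  have hn := hnear M D hDD1 y G hG hcl
  have hf := hfar M D hD1' hv y
  have hs := sd_le_sum_cross r M.poset y
  rw [hvy, Real.sqrt_sq (by linarith)] at hs
  have hsplit : ∑ x ∈ Finset.univ.filter (fun x => x ≠ y), Real.sqrt (crossP r x y) ≤
      ∑ x ∈ Finset.univ.filter (fun x => x ≠ y ∧ |ht r x - ht r y| < l2 * D),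
        Real.sqrt (crossP r x y) +
      ∑ x ∈ Finset.univ.filter (fun x => l2 * D ≤ |ht r x - ht r y|),
        Real.sqrt (crossP r x y) := by
    have hsub : (Finset.univ.filter (fun x => x ≠ y)) ⊆
        (Finset.univ.filter (fun x => x ≠ y ∧ |ht r x - ht r y| < l2 * D)) ∪
        (Finset.univ.filter (fun x => l2 * D ≤ |ht r x - ht r y|)) := by
      intro x hx
      simp only [Finset.mem_filter, Finset.mem_univ, true_and, Finset.mem_union] at hx ⊢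
      rcases lt_or_ge (|ht r x - ht r y|) (l2 * D) with h | h
      · exact Or.inl ⟨hx, h⟩
      · exact Or.inr h
    calc ∑ x ∈ Finset.univ.filter (fun x => x ≠ y), Real.sqrt (crossP r x y) ≤
        ∑ x ∈ (Finset.univ.filter (fun x => x ≠ y ∧ |ht r x - ht r y| < l2 * D)) ∪
          (Finset.univ.filter (fun x => l2 * D ≤ |ht r x - ht r y|)),
          Real.sqrt (crossP r x y) :=
          Finset.sum_le_sum_of_subset_of_nonneg hsub (fun _ _ _ => Real.sqrt_nonneg _)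
      _ ≤ _ := by
          rw [← Finset.sum_union_inter]
          have : 0 ≤ ∑ x ∈ (Finset.univ.filter (fun x => x ≠ y ∧ |ht r x - ht r y| < l2 * D)) ∩
            (Finset.univ.filter (fun x => l2 * D ≤ |ht r x - ht r y|)),
            Real.sqrt (crossP r x y) := Finset.sum_nonneg (fun _ _ => Real.sqrt_nonneg _)
          linarith
  have key : D ≤ 3 * D / 8 + D / 8 := by
    refine le_trans ?_ (le_trans hsplit (add_le_add hn hf))
    convert hs using 2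
  linarith

/-- Theorem I with an explicit bound, from the dense chain. -/
theorem theoremI_poly_of (hDC : DenseChainPoly) : ∃ p : ℝ, 1 ≤ p ∧ ∀ ε : ℝ, 0 < ε → ε ≤ 1 / 2 →
    ∀ {n : ℕ} (r : Fin n → Fin n → Prop), IsPoset r → Unb ε r →
    ∀ x, vr r x ≤ ((1 / ε) ^ (p / ε ^ 4)) ^ 2 := by
  obtain ⟨p, hp, c, hc, hmod⟩ := theoremI_model_poly hDC
  refine ⟨p, hp, ?_⟩
  intro ε hε hε' n r hr hU x
  by_contra hx
  push Not at hx
  set D0 : ℝ := (1 / ε) ^ (p / ε ^ 4) with hD0def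
  have hD0 : 1 ≤ D0 := by
    refine le_trans ?_ (thr_ge (by linarith : (0 : ℝ) ≤ p) hε hε')
    exact Real.one_le_rpow (by norm_num) (by linarith)
  -- the element of maximal variance
  obtain ⟨y, -, hy⟩ := Finset.exists_max_image (Finset.univ : Finset (Fin n)) (vr r)
    ⟨x, Finset.mem_univ x⟩
  have hy' : ∀ z, vr r z ≤ vr r y := fun z => hy z (Finset.mem_univ z)
  set D : ℝ := Real.sqrt (vr r y) with hD
  have hDsq : D ^ 2 = vr r y := by rw [hD, Real.sq_sqrt (vr_nonneg r y)]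
  have hD0D : D0 ≤ D := by
    rw [hD]
    apply Real.le_sqrt_of_sq_le
    linarith [hy' x]
  have hDpos : 1 ≤ D := le_trans hD0 hD0D
  obtain ⟨N, hN⟩ := exists_nat_ge (c * D)
  have hN1 : 1 ≤ N := by
    have : (1 : ℝ) ≤ N := by nlinarith
    exact_mod_cast this
  obtain ⟨r', top, i, hr', htop, hinj, hprob, hht, hvr, hvr0, hunb⟩ := extension r hr N hN1
  obtain ⟨M⟩ := exists_model r' top hr' htop
  refine hmod ε hε hε' M (hunb _ hε' hU) D hD0D ?_ (i y) ?_ ?_ ?_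
  · intro z
    by_cases hz : ∃ x, z = i x
    · obtain ⟨x, rfl⟩ := hz
      rw [hvr, hDsq]
      exact hy' x
    · push Not at hz
      rw [hvr0 z hz]
      positivity
  · rw [hvr, hDsq]
  · rw [hht]
    linarith [ht_nonneg r y]
  · rw [hht]
    push_cast
    linarith [ht_le r y]

/-- Theorem I with an explicit bound. -/
theorem theoremI_poly : ∃ p : ℝ, 1 ≤ p ∧ ∀ ε : ℝ, 0 < ε → ε ≤ 1 / 2 →
    ∀ {n : ℕ} (r : Fin n → Fin n → Prop), IsPoset r → Unb ε r →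
    ∀ x, vr r x ≤ ((1 / ε) ^ (p / ε ^ 4)) ^ 2 :=
  theoremI_poly_of dense_chain_poly

end Pool.Agent.KSR
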